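import Mathlib
import Pool.Agent.Zk99.HB.Cor

/-!
# Illumination of unconditional bodies by sign vectors with weights
-/

set_option autoImplicit false

namespace Pool.Agent.Zk99.HC

open Finset Filter Topology
open Pool.Agent.N148.HD (Unc unc_le sol_of_unc)

/-- If all normals at `x` have a positive product with `v`, then `x - t v` is in the interior for
some `t`. -/
theorem illum {V : Type} [NormedAddCommGroup V] [NormedSpace ℝ V] {K : Set V}
    (hK : Convex ℝ K) (hi : (interior K).Nonempty) {x v : V} (hx : x ∈ K)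
    (h : ∀ f : V →L[ℝ] ℝ, f ≠ 0 → (∀ y ∈ K, f y ≤ f x) → 0 < f v) :
    ∃ ε : ℝ, 0 < ε ∧ ε ≤ 1 ∧ x - ε • v ∈ interior K := by
  by_contra hcon
  push Not at hcon
  set S : Set V := (fun t : ℝ => x - t • v) '' Set.Ioc 0 1 with hS
  have hSc : Convex ℝ S := by
    rintro _ ⟨t, ht, rfl⟩ _ ⟨t', ht', rfl⟩ a b ha hb hab
    refine ⟨a * t + b * t', ?_, ?_⟩
    · exact (convex_Ioc (0 : ℝ) 1) ht ht' ha hb hab
    · show x - (a * t + b * t') • v = a • (x - t • v) + b • (x - t' • v)
      have e : x = a • x + b • x := by rw [← add_smul, hab, one_smul]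
      rw [smul_sub, smul_sub, add_smul, mul_smul, mul_smul]
      nth_rw 1 [e]
      abel
  have hdis : Disjoint (interior K) S := by
    rw [Set.disjoint_left]
    rintro y hy ⟨t, ht, rfl⟩
    exact hcon t ht.1 ht.2 hy
  obtain ⟨f, u, h1, h2⟩ := geometric_hahn_banach_open hK.interior isOpen_interior hSc hdis
  have h3 : ∀ y ∈ K, f y ≤ u := by
    intro y hy
    have hcl : K ⊆ closure (interior K) := by
      rw [hK.closure_interior_eq_closure_of_nonempty_interior hi]
      exact subset_closure
    have hcl2 : closure (interior K) ⊆ {y | f y ≤ u} :=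
      closure_minimal (fun z hz => (h1 z hz).le) (isClosed_le f.continuous continuous_const)
    exact hcl2 (hcl hy)
  have h4 : ∀ t : ℝ, 0 < t → t ≤ 1 → u ≤ f x - t * f v := by
    intro t ht ht1
    have := h2 _ ⟨t, ⟨ht, ht1⟩, rfl⟩
    simpa [map_sub, map_smul, smul_eq_mul] using this
  have h5 : u ≤ f x := by
    by_contra hlt
    push Not at hlt
    by_cases hv : 0 ≤ f v
    · have := h4 1 one_pos le_rfl
      linarith
    · push Not at hv
      have hd : 0 < u - f x := by linarith
      set t : ℝ := min 1 ((u - f x) / (-f v) / 2) with ht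
      have hpos : 0 < (u - f x) / (-f v) / 2 := by
        have : 0 < -f v := by linarith
        positivity
      have ht0 : 0 < t := lt_min one_pos hpos
      have ht1 : t ≤ 1 := min_le_left _ _
      have ht2 : t ≤ (u - f x) / (-f v) / 2 := min_le_right _ _
      have h6 := h4 t ht0 ht1
      have h7 : t * (-f v) ≤ (u - f x) / 2 := by
        have h8 : (u - f x) / (-f v) / 2 * (-f v) = (u - f x) / 2 := by
          have : -f v ≠ 0 := by
            intro h
            linarith
          rw [div_div, mul_comm (-f v) 2, ← div_div, div_mul_cancel₀ _ this]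
        rw [← h8]
        exact mul_le_mul_of_nonneg_right ht2 (by linarith)
      linarith
  have hf : f ≠ 0 := by
    rintro rfl
    obtain ⟨z, hz⟩ := hi
    have h6 := h1 z hz
    have h7 := h4 1 one_pos le_rfl
    simp at h6 h7
    linarith
  have h6 := h f hf fun y hy => (h3 y hy).trans h5
  have h7 := h4 1 one_pos le_rfl
  have h8 := h3 x hx
  linarith

variable {ι : Type} [Fintype ι] [DecidableEq ι]

/-- `w` are the absolute values of the coordinates of a normal of the unconditional body `K` at
the point `x` -/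
structure Nor (K : Set (ι → ℝ)) (x w : ι → ℝ) : Prop where
  nn : ∀ i, 0 ≤ w i
  pos : ∃ i, 0 < w i
  mx : ∀ y ∈ K, ∑ i, w i * |y i| ≤ ∑ i, w i * |x i|

/-- the sign with which the `i`-th coordinate contributes -/
noncomputable def cs (σ : ι → ℤˣ) (x : ι → ℝ) (i : ι) : ℝ :=
  if 0 < ((σ i : ℤ) : ℝ) * x i then 1 else -1

/-- The direction with signs `σ` and weights `a` is good for `x`. -/
def Good (K : Set (ι → ℝ)) (x : ι → ℝ) (σ : ι → ℤˣ) (a : ι → ℝ) : Prop :=
  ∀ w, Nor K x w → 0 < ∑ i, cs σ x i * a i * w i

lemma unit_cases (s : ℤˣ) : ((s : ℤ) : ℝ) = 1 ∨ ((s : ℤ) : ℝ) = -1 := by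
  rcases Int.units_eq_one_or s with h | h
  · left
    rw [h]
    simp
  · right
    rw [h]
    simp

lemma good_illum {K : Set (ι → ℝ)} (hK : Convex ℝ K) (hi : (interior K).Nonempty) (hu : Unc K)
    {x : ι → ℝ} (hx : x ∈ K) {σ : ι → ℤˣ} {a : ι → ℝ} (ha : ∀ i, 0 < a i)
    (h : Good K x σ a) :
    ∃ ε : ℝ, 0 < ε ∧ ε ≤ 1 ∧ x - ε • (fun i => ((σ i : ℤ) : ℝ) * a i) ∈ interior K := by
  refine illum hK hi hx fun f hf hmax => ?_
  set u : ι → ℝ := fun i => f (fun j => if i = j then 1 else 0) with hudef
  have hfe : ∀ y : ι → ℝ, f y = ∑ i, y i * u i := by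
    intro y
    have := f.toLinearMap.pi_apply_eq_sum_univ y
    simpa [smul_eq_mul] using this
  have hsgn : ∀ i, 0 ≤ u i * x i := by
    intro i
    by_contra hneg
    push Not at hneg
    have hy : Function.update x i (-x i) ∈ K := by
      refine hu x hx _ fun j => ?_
      by_cases hj : j = i
      · subst hj
        rw [Function.update_self, abs_neg]
      · rw [Function.update_of_ne hj]
    have h1 := hmax _ hy
    rw [hfe, hfe, ← sub_nonneg, ← Finset.sum_sub_distrib] at h1
    have h2 : ∑ j, (x j * u j - Function.update x i (-x i) j * u j) = 2 * (u i * x i) := by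
      rw [Finset.sum_eq_single i]
      · rw [Function.update_self]
        ring
      · intro j _ hj
        rw [Function.update_of_ne hj]
        ring
      · intro h
        exact absurd (mem_univ i) h
    rw [h2] at h1
    linarith
  have hnor : Nor K x fun i => |u i| := by
    refine ⟨fun i => abs_nonneg _, ?_, fun y hy => ?_⟩
    · by_contra hall
      push Not at hall
      apply hf
      ext y
      rw [hfe]
      rw [_root_.zero_apply]
      refine Finset.sum_eq_zero fun i _ => ?_
      have h1 : |u i| = 0 := le_antisymm (hall i) (abs_nonneg _)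
      rw [abs_eq_zero.1 h1, mul_zero]
    · have h1 : ∑ i, |u i| * |x i| = f x := by
        rw [hfe]
        refine Finset.sum_congr rfl fun i _ => ?_
        rw [← abs_mul, abs_of_nonneg (hsgn i), mul_comm]
      have h2 : (fun i => if 0 ≤ u i then |y i| else -|y i|) ∈ K := by
        refine hu y hy _ fun i => ?_
        split_ifs
        · exact abs_abs _
        · rw [abs_neg, abs_abs]
      have h3 := hmax _ h2
      rw [h1]
      refine le_trans (le_of_eq ?_) h3
      rw [hfe]
      refine Finset.sum_congr rfl fun i _ => ?_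
      by_cases h4 : 0 ≤ u i
      · simp only [if_pos h4]
        rw [abs_of_nonneg h4, mul_comm]
      · simp only [if_neg h4]
        rw [abs_of_neg (not_le.1 h4)]
        ring
  refine (h _ hnor).trans_le ?_
  rw [hfe]
  refine Finset.sum_le_sum fun i _ => ?_
  have h5 := ha i
  have h6 := hsgn i
  have h7 : cs σ x i * |u i| ≤ ((σ i : ℤ) : ℝ) * u i := by
    unfold cs
    split_ifs with h8
    · rw [one_mul]
      rcases unit_cases (σ i) with h9 | h9
      · rw [h9, one_mul] at h8 ⊢
        rw [abs_of_nonneg (by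
          by_contra h10
          push Not at h10
          nlinarith)]
      · rw [h9] at h8 ⊢
        rw [abs_of_nonpos (by
          by_contra h10
          push Not at h10
          nlinarith)]
        linarith
    · rcases unit_cases (σ i) with h9 | h9
      · rw [h9]
        linarith [neg_abs_le (u i)]
      · rw [h9]
        linarith [le_abs_self (u i)]
  calc cs σ x i * a i * |u i| = (cs σ x i * |u i|) * a i := by ring
    _ ≤ (((σ i : ℤ) : ℝ) * u i) * a i := mul_le_mul_of_nonneg_right h7 h5.le
    _ = ((σ i : ℤ) : ℝ) * a i * u i := by ring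

/-- **Reduction to goodness.** -/
theorem cover_of_good {K : Set (ι → ℝ)} (hK : Convex ℝ K) (hKc : IsCompact K)
    (hi : (interior K).Nonempty) (hu : Unc K) (a : (ι → ℤˣ) → ι → ℝ) (ha : ∀ σ i, 0 < a σ i)
    (h : ∀ x ∈ K, ∃ σ, Good K x σ (a σ)) :
    ∃ T : Finset (ι → ℝ), T.card ≤ 2 ^ Fintype.card ι ∧
      K ⊆ ⋃ t ∈ T, (fun x => t + x) '' interior K := by
  have h1 := Pool.Agent.Zk99.HB.cover_of_pointwise hK hKc
    (fun (σ : ι → ℤˣ) (i : ι) => ((σ i : ℤ) : ℝ) * a σ i) (fun x hx => by
      obtain ⟨σ, hσ⟩ := h x hx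
      obtain ⟨ε, h1, h2, h3⟩ := good_illum hK hi hu hx (ha σ) hσ
      exact ⟨σ, ε, h1, h2, h3⟩)
  rw [Fintype.card_fun, Fintype.card_units_int] at h1
  exact h1

end Pool.Agent.Zk99.HC
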