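import Mathlib
import Pool.Agent.Zk99.HC.Illum

/-!
# Good tokens for bodies with a box section of codimension two
-/

set_option autoImplicit false

namespace Pool.Agent.Zk99.HC

open Finset Filter Topology
open Pool.Agent.N148.HD (Unc unc_le sol_of_unc)

variable {ι : Type} [Fintype ι] [DecidableEq ι]

/-- the coordinates other than `p`, `q` -/
def bs (p q : ι) : Finset ι := univ.filter fun b => b ≠ p ∧ b ≠ q

lemma mem_bs {p q b : ι} : b ∈ bs p q ↔ b ≠ p ∧ b ≠ q := by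
  simp [bs]

lemma bs_swap (p q : ι) : bs q p = bs p q := by
  ext b
  rw [mem_bs, mem_bs, and_comm]

lemma sum_split {p q : ι} (hpq : p ≠ q) (f : ι → ℝ) :
    ∑ i, f i = f p + f q + ∑ b ∈ bs p q, f b := by
  have h1 : bs p q = (univ.erase p).erase q := by
    ext b
    simp [bs, and_comm]
  rw [h1, add_assoc, Finset.add_sum_erase _ _ (by simp [hpq.symm]),
    Finset.add_sum_erase _ _ (mem_univ p)]

/-- a normalised body -/
structure Nrm (K : Set (ι → ℝ)) (p q : ι) : Prop where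
  cvx : Convex ℝ K
  cmp : IsCompact K
  int : (interior K).Nonempty
  unc : Unc K
  pq : p ≠ q
  le : ∀ x ∈ K, ∀ i, |x i| ≤ 1
  ep : (fun i => if i = p then 1 else 0) ∈ K
  eq : (fun i => if i = q then 1 else 0) ∈ K
  bx : (fun i => if i = p ∨ i = q then 0 else 1) ∈ K

lemma Nrm.symm {K : Set (ι → ℝ)} {p q : ι} (h : Nrm K p q) : Nrm K q p where
  cvx := h.cvx
  cmp := h.cmp
  int := h.int
  unc := h.unc
  pq := h.pq.symm
  le := h.le
  ep := h.eq
  eq := h.ep
  bx := by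
    have h1 := h.bx
    have e : (fun i => if i = q ∨ i = p then (0 : ℝ) else 1) =
        fun i => if i = p ∨ i = q then 0 else 1 := by
      funext i
      simp only [or_comm]
    rw [e]
    exact h1

/-- the sign `σ i` is the sign of `x i` -/
def Rt (σ : ι → ℤˣ) (x : ι → ℝ) (i : ι) : Prop := 0 < ((σ i : ℤ) : ℝ) * x i

omit [Fintype ι] [DecidableEq ι] in
lemma cs_rt {σ : ι → ℤˣ} {x : ι → ℝ} {i : ι} (h : Rt σ x i) : cs σ x i = 1 := if_pos h

omit [Fintype ι] [DecidableEq ι] in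
lemma cs_nrt {σ : ι → ℤˣ} {x : ι → ℝ} {i : ι} (h : ¬ Rt σ x i) : cs σ x i = -1 := if_neg h

omit [Fintype ι] [DecidableEq ι] in
lemma nrt_zero {σ : ι → ℤˣ} {x : ι → ℝ} {i : ι} (h : x i = 0) : ¬ Rt σ x i := by
  unfold Rt
  rw [h, mul_zero]
  exact lt_irrefl 0

omit [Fintype ι] [DecidableEq ι] in
lemma Rt.ne {σ : ι → ℤˣ} {x : ι → ℝ} {i : ι} (h : Rt σ x i) : x i ≠ 0 := fun h0 => nrt_zero h0 h

/-- the sum of the weights -/
noncomputable def WW (p q : ι) (w : ι → ℝ) : ℝ := ∑ b ∈ bs p q, w b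

/-- the sum of the weights times the coordinates -/
noncomputable def SS (p q : ι) (x w : ι → ℝ) : ℝ := ∑ b ∈ bs p q, w b * |x b|

open Classical in
/-- the sum of the weights with wrong signs -/
noncomputable def EE (p q : ι) (σ : ι → ℤˣ) (x w : ι → ℝ) : ℝ :=
  ∑ b ∈ bs p q, if Rt σ x b then 0 else w b

section facts

variable {K : Set (ι → ℝ)} {p q : ι} {x w : ι → ℝ}

lemma f_S0 (hw : Nor K x w) : 0 ≤ SS p q x w :=
  Finset.sum_nonneg fun b _ => mul_nonneg (hw.nn b) (abs_nonneg _)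

lemma f_SW (h : Nrm K p q) (hx : x ∈ K) (hw : Nor K x w) : SS p q x w ≤ WW p q w :=
  Finset.sum_le_sum fun b _ => by
    have h1 := h.le x hx b
    have h2 := hw.nn b
    nlinarith

lemma f_E0 (σ : ι → ℤˣ) (hw : Nor K x w) : 0 ≤ EE p q σ x w :=
  Finset.sum_nonneg fun b _ => by
    split_ifs
    · exact le_rfl
    · exact hw.nn b

lemma f_EW (σ : ι → ℤˣ) (hw : Nor K x w) : EE p q σ x w ≤ WW p q w :=
  Finset.sum_le_sum fun b _ => by
    split_ifs
    · exact hw.nn b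
    · exact le_rfl

lemma f_mx (h : Nrm K p q) (hw : Nor K x w) {y : ι → ℝ} (hy : y ∈ K) :
    ∑ i, w i * |y i| ≤ w p * |x p| + w q * |x q| + SS p q x w := by
  have := hw.mx y hy
  rw [sum_split h.pq (fun i => w i * |x i|)] at this
  exact this

lemma f_E1 (h : Nrm K p q) (hw : Nor K x w) :
    WW p q w ≤ w p * |x p| + w q * |x q| + SS p q x w := by
  have h1 := f_mx h hw h.bx
  rw [sum_split h.pq] at h1
  refine le_trans (le_of_eq ?_) h1
  rw [if_pos (Or.inl rfl), if_pos (Or.inr rfl), abs_zero, mul_zero, mul_zero, zero_add, zero_add]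
  refine Finset.sum_congr rfl fun b hb => ?_
  rw [mem_bs] at hb
  rw [if_neg (by tauto), abs_one, mul_one]

lemma f_E2 (h : Nrm K p q) (hw : Nor K x w) :
    w p ≤ w p * |x p| + w q * |x q| + SS p q x w := by
  have h1 := f_mx h hw h.ep
  refine le_trans (le_of_eq ?_) h1
  rw [Finset.sum_eq_single p]
  · rw [if_pos rfl, abs_one, mul_one]
  · intro b _ hb
    rw [if_neg hb, abs_zero, mul_zero]
  · intro hb
    exact absurd (mem_univ p) hb

lemma f_E2' (h : Nrm K p q) (hw : Nor K x w) :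
    w q ≤ w p * |x p| + w q * |x q| + SS p q x w := by
  have h1 := f_mx h hw h.eq
  refine le_trans (le_of_eq ?_) h1
  rw [Finset.sum_eq_single q]
  · rw [if_pos rfl, abs_one, mul_one]
  · intro b _ hb
    rw [if_neg hb, abs_zero, mul_zero]
  · intro hb
    exact absurd (mem_univ q) hb

/-- the section with the coordinates `p`, `q` is a square -/
def Sq (K : Set (ι → ℝ)) (p q : ι) : Prop := (fun i => if i = p ∨ i = q then (1 : ℝ) else 0) ∈ K

omit [Fintype ι] in
lemma Sq.symm (h : Sq K p q) : Sq K q p := by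
  unfold Sq at *
  simp only [or_comm] at *
  exact h

lemma f_E3 (h : Nrm K p q) (hs : Sq K p q) (hw : Nor K x w) :
    w p + w q ≤ w p * |x p| + w q * |x q| + SS p q x w := by
  have h1 := f_mx h hw hs
  rw [sum_split h.pq] at h1
  refine le_trans (le_of_eq ?_) h1
  rw [if_pos (Or.inl rfl), if_pos (Or.inr rfl), abs_one, mul_one, mul_one]
  have : ∑ b ∈ bs p q, w b * |if b = p ∨ b = q then (1 : ℝ) else 0| = 0 := by
    refine Finset.sum_eq_zero fun b hb => ?_
    rw [mem_bs] at hb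
    rw [if_neg (by tauto), abs_zero, mul_zero]
  rw [this, add_zero]

lemma f_pos (h : Nrm K p q) (hw : Nor K x w) : 0 < WW p q w + w p + w q := by
  obtain ⟨i, hi⟩ := hw.pos
  have h1 : 0 < ∑ i, w i := Finset.sum_pos' (fun i _ => hw.nn i) ⟨i, mem_univ i, hi⟩
  rw [sum_split h.pq] at h1
  unfold WW
  linarith

lemma f_gain (h : Nrm K p q) (σ : ι → ℤˣ) (x w a : ι → ℝ) (ha : ∀ b, b ≠ p → b ≠ q → a b = 1) :
    ∑ i, cs σ x i * a i * w i =
      WW p q w - 2 * EE p q σ x w + cs σ x p * a p * w p + cs σ x q * a q * w q := by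
  rw [sum_split h.pq]
  have : ∑ b ∈ bs p q, cs σ x b * a b * w b = WW p q w - 2 * EE p q σ x w := by
    unfold WW EE
    rw [Finset.mul_sum, ← Finset.sum_sub_distrib]
    refine Finset.sum_congr rfl fun b hb => ?_
    rw [mem_bs] at hb
    rw [ha b hb.1 hb.2]
    by_cases h1 : Rt σ x b
    · rw [cs_rt h1, if_pos h1]
      ring
    · rw [cs_nrt h1, if_neg h1]
      ring
  rw [this]
  ring

lemma f_gain' (h : Nrm K p q) (σ : ι → ℤˣ) (x w a : ι → ℝ) {b₀ : ι} (hb₀ : b₀ ≠ p ∧ b₀ ≠ q)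
    (ha : ∀ b, b ≠ p → b ≠ q → b ≠ b₀ → a b = 1) :
    ∑ i, cs σ x i * a i * w i =
      WW p q w - 2 * EE p q σ x w + cs σ x b₀ * (a b₀ - 1) * w b₀ + cs σ x p * a p * w p +
        cs σ x q * a q * w q := by
  have h1 := f_gain h σ x w (Function.update a b₀ 1) (fun b h1 h2 => by
    by_cases h3 : b = b₀
    · rw [h3, Function.update_self]
    · rw [Function.update_of_ne h3]
      exact ha b h1 h2 h3)
  rw [Function.update_of_ne hb₀.1.symm, Function.update_of_ne hb₀.2.symm] at h1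
  have h2 : ∑ i, cs σ x i * a i * w i = ∑ i, cs σ x i * Function.update a b₀ 1 i * w i +
      cs σ x b₀ * (a b₀ - 1) * w b₀ := by
    rw [← sub_eq_iff_eq_add', ← Finset.sum_sub_distrib, Finset.sum_eq_single b₀]
    · rw [Function.update_self]
      ring
    · intro b _ hb
      rw [Function.update_of_ne hb]
      ring
    · intro hb
      exact absurd (mem_univ b₀) hb
  rw [h2, h1]
  ring

lemma f_half (h : Nrm K p q) (hx : x ∈ K) (hw : Nor K x w) {σ : ι → ℤˣ}
    (hB : ∀ b, b ≠ p → b ≠ q → ¬ Rt σ x b → |x b| ≤ 1 / 2) :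
    EE p q σ x w ≤ 2 * (WW p q w - SS p q x w) := by
  unfold EE WW SS
  rw [← Finset.sum_sub_distrib, Finset.mul_sum]
  refine Finset.sum_le_sum fun b hb => ?_
  rw [mem_bs] at hb
  have h2 := hw.nn b
  split_ifs with h1
  · have h3 := h.le x hx b
    nlinarith
  · have h3 := hB b hb.1 hb.2 h1
    nlinarith

lemma f_zero (h : Nrm K p q) (hx : x ∈ K) (hw : Nor K x w) {σ : ι → ℤˣ}
    (hB : ∀ b, b ≠ p → b ≠ q → ¬ Rt σ x b → x b = 0) :
    EE p q σ x w ≤ WW p q w - SS p q x w := by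
  unfold EE WW SS
  rw [← Finset.sum_sub_distrib]
  refine Finset.sum_le_sum fun b hb => ?_
  rw [mem_bs] at hb
  have h2 := hw.nn b
  split_ifs with h1
  · have h3 := h.le x hx b
    nlinarith
  · have h3 := hB b hb.1 hb.2 h1
    rw [h3, abs_zero]
    linarith

lemma f_right {σ : ι → ℤˣ} (hB : ∀ b, b ≠ p → b ≠ q → Rt σ x b) : EE p q σ x w = 0 := by
  unfold EE
  refine Finset.sum_eq_zero fun b hb => ?_
  rw [mem_bs] at hb
  rw [if_pos (hB b hb.1 hb.2)]

lemma f_b0 (hw : Nor K x w) {b₀ : ι} (hb₀ : b₀ ≠ p ∧ b₀ ≠ q) : w b₀ ≤ WW p q w :=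
  Finset.single_le_sum (f := w) (fun b _ => hw.nn b) (mem_bs.2 hb₀)

open Classical in
lemma f_b0' (hw : Nor K x w) {b₀ : ι} (hb₀ : b₀ ≠ p ∧ b₀ ≠ q) {σ : ι → ℤˣ} (h0 : Rt σ x b₀) :
    w b₀ ≤ WW p q w - EE p q σ x w := by
  unfold WW EE
  rw [← Finset.sum_sub_distrib]
  have h1 : w b₀ = w b₀ - if Rt σ x b₀ then 0 else w b₀ := by rw [if_pos h0, sub_zero]
  rw [h1]
  refine Finset.single_le_sum (f := fun b => w b - if Rt σ x b then 0 else w b) (fun b _ => ?_)
    (mem_bs.2 hb₀)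
  split_ifs
  · rw [sub_zero]
    exact hw.nn b
  · rw [sub_self]

lemma f_P (h : Nrm K p q) (hx : x ∈ K) (hw : Nor K x w) : 0 ≤ w p * |x p| ∧ w p * |x p| ≤ w p := by
  have h1 := h.le x hx p
  have h2 := hw.nn p
  exact ⟨mul_nonneg h2 (abs_nonneg _), by nlinarith⟩

lemma f_Q (h : Nrm K p q) (hx : x ∈ K) (hw : Nor K x w) : 0 ≤ w q * |x q| ∧ w q * |x q| ≤ w q := by
  have h1 := h.le x hx q
  have h2 := hw.nn q
  exact ⟨mul_nonneg h2 (abs_nonneg _), by nlinarith⟩

end facts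

section tokens

variable {K : Set (ι → ℝ)} {p q : ι} {x : ι → ℝ} {σ : ι → ℤˣ} {a : ι → ℝ}

/-- all signs are right -/
lemma good_full (ha : ∀ i, 0 < a i) (hr : ∀ i, Rt σ x i) : Good K x σ a := by
  intro w hw
  obtain ⟨i, hi⟩ := hw.pos
  refine Finset.sum_pos' (fun j _ => ?_) ⟨i, mem_univ i, ?_⟩
  · rw [cs_rt (hr j), one_mul]
    exact mul_nonneg (ha j).le (hw.nn j)
  · rw [cs_rt (hr i), one_mul]
    exact mul_pos (ha i) hi

lemma good_PQ (h : Nrm K p q) (hx : x ∈ K) (hp : Rt σ x p) (hq : Rt σ x q)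
    (hB : ∀ b, b ≠ p → b ≠ q → ¬ Rt σ x b → |x b| ≤ 1 / 2)
    (ha : ∀ b, b ≠ p → b ≠ q → a b = 1) (hap : a p = 8) (haq : a q = 8) : Good K x σ a := by
  intro w hw
  rw [f_gain h σ x w a ha, cs_rt hp, cs_rt hq, hap, haq]
  have h1 := f_half h hx hw hB
  have h2 := f_E1 h hw
  have h3 := f_P h hx hw
  have h4 := f_Q h hx hw
  have h5 := f_pos h hw
  have h6 := hw.nn p
  have h7 := hw.nn q
  have h8 := f_S0 (p := p) (q := q) hw
  have h9 := f_SW h hx hw
  linarith

lemma good_P0 (h : Nrm K p q) (hx : x ∈ K) (hp : Rt σ x p) (hq : x q = 0)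
    (hB : ∀ b, b ≠ p → b ≠ q → ¬ Rt σ x b → |x b| ≤ 1 / 2)
    (ha : ∀ b, b ≠ p → b ≠ q → a b = 1) (hap : a p = 8) (haq0 : 0 < a q) (haq : a q < 1) :
    Good K x σ a := by
  intro w hw
  rw [f_gain h σ x w a ha, cs_rt hp, cs_nrt (nrt_zero hq), hap]
  have h1 := f_half h hx hw hB
  have h2 := f_E1 h hw
  have h3 := f_P h hx hw
  have h5 := f_pos h hw
  have h6 := hw.nn p
  have h7 := hw.nn q
  have h8 := f_S0 (p := p) (q := q) hw
  have h9 := f_SW h hx hw
  have h10 := f_E2' h hw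
  rw [hq, abs_zero, mul_zero] at h2 h10
  set W := WW p q w
  set S := SS p q x w
  set E := EE p q σ x w
  -- gain ≥ W - 4 A + 8 wp - a_q (S + A)
  have h11 : a q * w q ≤ a q * (w p * |x p| + S) := mul_le_mul_of_nonneg_left (by linarith) haq0.le
  have h12 : a q * (w p * |x p| + S) ≤ w p * |x p| + S := by
    have : 0 ≤ w p * |x p| + S := by linarith
    nlinarith
  by_cases hz : 0 < w p
  · linarith
  · have h13 : w p = 0 := le_antisymm (not_lt.1 hz) h6
    rw [h13] at h2 h3 h5 h10 h11 h12 ⊢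
    have h14 : 0 < W := by
      by_contra hW
      push Not at hW
      linarith
    have h15 : a q * S ≤ a q * W := mul_le_mul_of_nonneg_left h9 haq0.le
    have h16 : a q * W < W := by nlinarith
    linarith

lemma good_P0' (h : Nrm K p q) (hx : x ∈ K) (hp : Rt σ x p) (hq : x q = 0)
    (hB : ∀ b, b ≠ p → b ≠ q → ¬ Rt σ x b → |x b| ≤ 1 / 2) {b₀ : ι} (hb₀ : b₀ ≠ p ∧ b₀ ≠ q)
    {η : ℝ} (hη0 : 0 < η) (hη1 : η ≤ 1 / 8) (hb₀x : |x b₀| + |x p| ≤ 1)
    (ha : ∀ b, b ≠ p → b ≠ q → b ≠ b₀ → a b = 1) (hab : a b₀ = 1 - 2 * η) (hap : a p = 8)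
    (haq : a q = 1 - η) : Good K x σ a := by
  intro w hw
  rw [f_gain' h σ x w a hb₀ ha, cs_rt hp, cs_nrt (nrt_zero hq), hap, haq, hab]
  have h1 := f_half h hx hw hB
  have h2 := f_E1 h hw
  have h3 := f_P h hx hw
  have h5 := f_pos h hw
  have h6 := hw.nn p
  have h7 := hw.nn q
  have h8 := f_S0 (p := p) (q := q) hw
  have h9 := f_SW h hx hw
  have h10 := f_E2' h hw
  have hb0 := hw.nn b₀
  rw [hq, abs_zero, mul_zero] at h2 h10
  -- `w b₀ ≤ w p`
  have hbp : w b₀ ≤ w p := by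
    have h11 : w b₀ * (1 - |x b₀|) ≤ WW p q w - SS p q x w := by
      unfold WW SS
      rw [← Finset.sum_sub_distrib]
      have h12 : w b₀ * (1 - |x b₀|) = w b₀ - w b₀ * |x b₀| := by ring
      rw [h12]
      refine Finset.single_le_sum (f := fun b => w b - w b * |x b|) (fun b _ => ?_)
        (mem_bs.2 hb₀)
      have h13 := h.le x hx b
      have h14 := hw.nn b
      nlinarith
    have h12 : w b₀ * |x p| ≤ w b₀ * (1 - |x b₀|) := mul_le_mul_of_nonneg_left (by linarith) hb0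
    have h13 : w b₀ * |x p| ≤ w p * |x p| := by linarith
    exact le_of_mul_le_mul_right h13 (abs_pos.2 hp.ne)
  have hcs : -(2 * η * w b₀) ≤ cs σ x b₀ * (1 - 2 * η - 1) * w b₀ := by
    have h11 : 0 ≤ η * w b₀ := mul_nonneg hη0.le hb0
    by_cases h12 : Rt σ x b₀
    · rw [cs_rt h12]
      linarith
    · rw [cs_nrt h12]
      linarith
  set W := WW p q w
  set S := SS p q x w
  set E := EE p q σ x w
  have h11 : (1 - η) * w q ≤ (1 - η) * (w p * |x p| + S) :=
    mul_le_mul_of_nonneg_left (by linarith) (by linarith)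
  have h12 : (1 - η) * (w p * |x p| + S) ≤ w p * |x p| + (1 - η) * S := by
    have : 0 ≤ η * (w p * |x p|) := mul_nonneg hη0.le h3.1
    linarith
  have h13 : η * w b₀ ≤ w p := by nlinarith
  have h14 : (1 - η) * S ≤ (1 - η) * W := mul_le_mul_of_nonneg_left h9 (by linarith)
  by_cases hz : 0 < w p
  · have h15 : 0 ≤ η * W := mul_nonneg hη0.le (h8.trans h9)
    linarith
  · have h15 : w p = 0 := le_antisymm (not_lt.1 hz) h6
    have h16 : w b₀ = 0 := le_antisymm (by linarith) hb0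
    have h14 : 0 < W := by
      by_contra hW
      push Not at hW
      rw [h15] at h2 h10 h5 h3
      linarith
    have h17 : 0 < η * W := mul_pos hη0 h14
    rw [h15, h16] at *
    linarith

lemma good_P2 (h : Nrm K p q) (hx : x ∈ K) (hp : Rt σ x p) (hq : Rt σ x q)
    (hB : ∀ b, b ≠ p → b ≠ q → ¬ Rt σ x b → x b = 0)
    (ha : ∀ b, b ≠ p → b ≠ q → a b = 1) (hap : a p = 8) (haq : |x q| < a q) :
    Good K x σ a := by
  intro w hw
  rw [f_gain h σ x w a ha, cs_rt hp, cs_rt hq, hap]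
  have h1 := f_zero h hx hw hB
  have h2 := f_E1 h hw
  have h3 := f_P h hx hw
  have h4 := f_Q h hx hw
  have h5 := f_pos h hw
  have h6 := hw.nn p
  have h7 := hw.nn q
  have h8 := f_S0 (p := p) (q := q) hw
  have h9 := f_SW h hx hw
  have h10 := f_EW (p := p) (q := q) σ hw
  set W := WW p q w
  set S := SS p q x w
  set E := EE p q σ x w
  by_cases hz : 0 < w q
  · have h11 : w q * |x q| < a q * w q := by nlinarith
    linarith
  · have h15 : w q = 0 := le_antisymm (not_lt.1 hz) h7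
    rw [h15] at h2 h4 h5 ⊢
    by_cases hz2 : 0 < w p
    · linarith
    · have h16 : w p = 0 := le_antisymm (not_lt.1 hz2) h6
      rw [h16] at h2 h3 h5 ⊢
      linarith

/-- failure of the token `P` -/
lemma fail_P2 (h : Nrm K p q) (hx : x ∈ K) (hp : Rt σ x p) (hq : Rt σ x q)
    (hB : ∀ b, b ≠ p → b ≠ q → ¬ Rt σ x b → x b = 0) {η : ℝ} (hη0 : 0 < η)
    (ha : ∀ b, b ≠ p → b ≠ q → a b = 1) (hap : a p = 8) (haq : a q = 1 - η)
    {w : ι → ℝ} (hw : Nor K x w) (hf : ∑ i, cs σ x i * a i * w i ≤ 0) :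
    0 < w q ∧ (1 - η) * w q ≤ WW p q w ∧ w p ≤ η * w q ∧
      ∀ y ∈ K, ∑ i, w i * |y i| ≤ (1 + 3 * η) * w q := by
  rw [f_gain h σ x w a ha, cs_rt hp, cs_rt hq, hap, haq] at hf
  have h1 := f_zero h hx hw hB
  have h2 := f_E1 h hw
  have h3 := f_P h hx hw
  have h4 := f_Q h hx hw
  have h5 := f_pos h hw
  have h6 := hw.nn p
  have h7 := hw.nn q
  have h8 := f_S0 (p := p) (q := q) hw
  have h9 := f_SW h hx hw
  have h10 := f_EW (p := p) (q := q) σ hw
  have h12 : 0 ≤ η * w q := mul_nonneg hη0.le h7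
  refine ⟨?_, by linarith, by linarith, fun y hy => ?_⟩
  · by_contra hz
    have h15 : w q = 0 := le_antisymm (not_lt.1 hz) h7
    rw [h15] at h2 h4 h5 hf
    linarith
  · have h11 := f_mx h hw hy
    linarith

/-- failure of the token `P` with a special coordinate -/
lemma fail_P2' (h : Nrm K p q) (hx : x ∈ K) (hp : Rt σ x p) (hq : Rt σ x q)
    (hB : ∀ b, b ≠ p → b ≠ q → ¬ Rt σ x b → x b = 0) {b₀ : ι} (hb₀ : b₀ ≠ p ∧ b₀ ≠ q)
    {η : ℝ} (hη0 : 0 < η) (hη1 : η ≤ 1 / 8)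
    (ha : ∀ b, b ≠ p → b ≠ q → b ≠ b₀ → a b = 1) (hab : a b₀ = 1 - 2 * η) (hap : a p = 8)
    (haq : a q = 1 - η)
    {w : ι → ℝ} (hw : Nor K x w) (hf : ∑ i, cs σ x i * a i * w i ≤ 0) :
    0 < w q ∧ (1 - η) * w q ≤ WW p q w ∧ w p ≤ η * w q ∧ w b₀ ≤ 1 / 2 * w q ∧
      ∀ y ∈ K, ∑ i, w i * |y i| ≤ (1 + 3 * η) * w q := by
  rw [f_gain' h σ x w a hb₀ ha, cs_rt hp, cs_rt hq, hap, haq, hab] at hf
  have h1 := f_zero h hx hw hB
  have h2 := f_E1 h hw
  have h3 := f_P h hx hw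
  have h4 := f_Q h hx hw
  have h5 := f_pos h hw
  have h6 := hw.nn p
  have h7 := hw.nn q
  have h8 := f_S0 (p := p) (q := q) hw
  have h9 := f_SW h hx hw
  have h10 := f_EW (p := p) (q := q) σ hw
  have hb0 := hw.nn b₀
  have h12 : 0 ≤ η * w q := mul_nonneg hη0.le h7
  have h13 : 0 ≤ η * w b₀ := mul_nonneg hη0.le hb0
  have key : (WW p q w - EE p q σ x w) + 7 * w p ≤ 2 * η * w q ∧ w b₀ ≤ 1 / 2 * w q ∧
      (1 - η) * w q ≤ EE p q σ x w := by
    by_cases h11 : Rt σ x b₀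
    · have h14 := f_b0' (p := p) (q := q) hw hb₀ h11
      rw [cs_rt h11] at hf
      have h15 : η * w b₀ ≤ η * (WW p q w - EE p q σ x w) := mul_le_mul_of_nonneg_left h14 hη0.le
      have h16 : η * (WW p q w - EE p q σ x w) ≤ 1 / 8 * (WW p q w - EE p q σ x w) :=
        mul_le_mul_of_nonneg_right hη1 (by linarith)
      have h17 : η * w q ≤ 1 / 8 * w q := mul_le_mul_of_nonneg_right hη1 h7
      refine ⟨by linarith, by linarith, by linarith⟩
    · rw [cs_nrt h11] at hf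
      have h15 : 2 * (η * w b₀) ≤ η * w q := by linarith
      have h16 : η * (2 * w b₀) ≤ η * w q := by linarith
      have h17 := le_of_mul_le_mul_left h16 hη0
      refine ⟨by linarith, by linarith, by linarith⟩
  obtain ⟨k1, k2, k3⟩ := key
  refine ⟨?_, by linarith, by linarith, k2, fun y hy => ?_⟩
  · by_contra hz
    have h15 : w q = 0 := le_antisymm (not_lt.1 hz) h7
    rw [h15] at h2 h4 h5 k1
    linarith
  · have h11 := f_mx h hw hy
    linarith

lemma good_O0 (h : Nrm K p q) (hx : x ∈ K) (hp : x p = 0) (hq : x q = 0)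
    (hB : ∀ b, b ≠ p → b ≠ q → ¬ Rt σ x b → x b = 0)
    (ha : ∀ b, b ≠ p → b ≠ q → a b = 1) (hap : 0 < a p) (haq : 0 < a q) (haa : a p + a q < 1) :
    Good K x σ a := by
  intro w hw
  rw [f_gain h σ x w a ha, cs_nrt (nrt_zero hp), cs_nrt (nrt_zero hq)]
  have h1 := f_zero h hx hw hB
  have h2 := f_E1 h hw
  have h3 := f_E2 h hw
  have h4 := f_E2' h hw
  have h5 := f_pos h hw
  have h6 := hw.nn p
  have h7 := hw.nn q
  have h8 := f_S0 (p := p) (q := q) hw
  have h9 := f_SW h hx hw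
  have h10 := f_EW (p := p) (q := q) σ hw
  rw [hp, hq, abs_zero, mul_zero, mul_zero] at h2 h3 h4
  have h11 : a p * w p ≤ a p * WW p q w := mul_le_mul_of_nonneg_left (by linarith) hap.le
  have h12 : a q * w q ≤ a q * WW p q w := mul_le_mul_of_nonneg_left (by linarith) haq.le
  have h13 : 0 < WW p q w := by linarith
  have h14 : (a p + a q) * WW p q w < WW p q w := by nlinarith
  linarith

lemma good_O0' (h : Nrm K p q) (hs : Sq K p q) (hx : x ∈ K) (hp : x p = 0) (hq : x q = 0)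
    (hB : ∀ b, b ≠ p → b ≠ q → ¬ Rt σ x b → x b = 0)
    (ha : ∀ b, b ≠ p → b ≠ q → a b = 1) {α : ℝ} (hα : α < 1) (hap : a p ≤ α) (haq : a q ≤ α)
    (hap0 : 0 < a p) : Good K x σ a := by
  intro w hw
  rw [f_gain h σ x w a ha, cs_nrt (nrt_zero hp), cs_nrt (nrt_zero hq)]
  have h1 := f_zero h hx hw hB
  have h2 := f_E1 h hw
  have h3 := f_E3 h hs hw
  have h5 := f_pos h hw
  have h6 := hw.nn p
  have h7 := hw.nn q
  have h8 := f_S0 (p := p) (q := q) hw
  have h9 := f_SW h hx hw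
  have h10 := f_EW (p := p) (q := q) σ hw
  rw [hp, hq, abs_zero, mul_zero, mul_zero] at h2 h3
  have h11 : a p * w p ≤ α * w p := mul_le_mul_of_nonneg_right hap h6
  have h12 : a q * w q ≤ α * w q := mul_le_mul_of_nonneg_right haq h7
  have hα0 : 0 < α := hap0.trans_le hap
  have h13 : 0 < WW p q w := by linarith
  have h14 : α * (w p + w q) ≤ α * WW p q w := mul_le_mul_of_nonneg_left (by linarith) hα0.le
  have h15 : α * WW p q w < WW p q w := by nlinarith
  linarith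

/-- all signs on `B` and at `p` are right, `x q = 0`; the section is not the diamond -/
lemma good_O1a (h : Nrm K p q) (hx : x ∈ K) (hp : Rt σ x p) (hq : x q = 0)
    (hB : ∀ b, b ≠ p → b ≠ q → Rt σ x b)
    (ha : ∀ b, b ≠ p → b ≠ q → a b = 1) (hap : a p = 1 / 4) (haq : a q = 1 / 4)
    (hy : ∃ y ∈ K, 1 < |y p| + |y q|) : Good K x σ a := by
  intro w hw
  obtain ⟨y, hy, hy1⟩ := hy
  have h0 := f_gain h σ x w a ha
  rw [cs_rt hp, cs_nrt (nrt_zero hq), hap, haq, f_right hB] at h0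
  rw [h0]
  by_contra hcon
  push Not at hcon
  have h3 := f_P h hx hw
  have h4 := f_E2' h hw
  have h5 := f_pos h hw
  have h6 := hw.nn p
  have h7 := hw.nn q
  have h8 := f_S0 (p := p) (q := q) hw
  have h9 := f_SW h hx hw
  have h11 := f_mx h hw hy
  rw [hq, abs_zero, mul_zero] at h4 h11
  have hW : WW p q w = 0 := by linarith
  have hpq : w q = w p := by linarith
  rw [sum_split h.pq] at h11
  have h12 : 0 ≤ ∑ b ∈ bs p q, w b * |y b| :=
    Finset.sum_nonneg fun b _ => mul_nonneg (hw.nn b) (abs_nonneg _)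
  rw [hpq] at h11 h5
  rw [hW] at h5
  have h13 : 0 < w p := by linarith
  have h14 : w p * 1 < w p * (|y p| + |y q|) := mul_lt_mul_of_pos_left hy1 h13
  linarith

lemma good_O1b (h : Nrm K p q) (hx : x ∈ K) (hp : Rt σ x p) (hq : x q = 0)
    (hB : ∀ b, b ≠ p → b ≠ q → Rt σ x b)
    (ha : ∀ b, b ≠ p → b ≠ q → a b = 1) (haq0 : 0 < a q) (haq : a q < a p) (haq1 : a q < 1) :
    Good K x σ a := by
  intro w hw
  rw [f_gain h σ x w a ha, cs_rt hp, cs_nrt (nrt_zero hq), f_right hB]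
  have h3 := f_P h hx hw
  have h4 := f_E2' h hw
  have h5 := f_pos h hw
  have h6 := hw.nn p
  have h7 := hw.nn q
  have h8 := f_S0 (p := p) (q := q) hw
  have h9 := f_SW h hx hw
  rw [hq, abs_zero, mul_zero] at h4
  have h10 : a q * w q ≤ a q * (w p + WW p q w) :=
    mul_le_mul_of_nonneg_left (by linarith) haq0.le
  by_cases hz : 0 < w p
  · have h11 : a q * w p < a p * w p := mul_lt_mul_of_pos_right haq hz
    have h12 : a q * WW p q w ≤ 1 * WW p q w :=
      mul_le_mul_of_nonneg_right haq1.le (h8.trans h9)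
    linarith
  · have h15 : w p = 0 := le_antisymm (not_lt.1 hz) h6
    have h16 : 0 < WW p q w := by
      rw [h15] at h3 h4 h5
      linarith
    have h17 : a q * WW p q w < 1 * WW p q w := mul_lt_mul_of_pos_right haq1 h16
    rw [h15] at h10 ⊢
    linarith

lemma good_O1c (h : Nrm K p q) (hs : Sq K p q) (hx : x ∈ K) (hp : Rt σ x p) (hq : x q = 0)
    (hB : ∀ b, b ≠ p → b ≠ q → Rt σ x b)
    (ha : ∀ b, b ≠ p → b ≠ q → a b = 1) (haq0 : 0 < a q) (hap0 : 0 < a p) (haq1 : a q < 1) :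
    Good K x σ a := by
  intro w hw
  rw [f_gain h σ x w a ha, cs_rt hp, cs_nrt (nrt_zero hq), f_right hB]
  have h3 := f_P h hx hw
  have h4 := f_E3 h hs hw
  have h5 := f_pos h hw
  have h6 := hw.nn p
  have h7 := hw.nn q
  have h8 := f_S0 (p := p) (q := q) hw
  have h9 := f_SW h hx hw
  rw [hq, abs_zero, mul_zero] at h4
  have h10 : a q * w q ≤ a q * (WW p q w) :=
    mul_le_mul_of_nonneg_left (by linarith) haq0.le
  by_cases hz : 0 < w p
  · have h11 : 0 < a p * w p := mul_pos hap0 hz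
    have h12 : a q * WW p q w ≤ 1 * WW p q w :=
      mul_le_mul_of_nonneg_right haq1.le (h8.trans h9)
    linarith
  · have h15 : w p = 0 := le_antisymm (not_lt.1 hz) h6
    have h16 : 0 < WW p q w := by
      rw [h15] at h3 h4 h5
      linarith
    have h17 : a q * WW p q w < 1 * WW p q w := mul_lt_mul_of_pos_right haq1 h16
    rw [h15]
    linarith

/-- all signs on `B` and at `q` are right, `x p = 0`, `|x q| ≤ 1 / 2`; weights `5/16`, `1/4` -/
lemma good_O2b (h : Nrm K p q) (hx : x ∈ K) (hq : Rt σ x q) (hp : x p = 0)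
    (hq2 : |x q| ≤ 1 / 2) (hB : ∀ b, b ≠ p → b ≠ q → Rt σ x b)
    (ha : ∀ b, b ≠ p → b ≠ q → a b = 1) (hap : a p = 5 / 16) (haq : a q = 1 / 4) :
    Good K x σ a := by
  intro w hw
  rw [f_gain h σ x w a ha, cs_rt hq, cs_nrt (nrt_zero hp), f_right hB, hap, haq]
  have h4 := f_E2 h hw
  have h5 := f_pos h hw
  have h6 := hw.nn p
  have h7 := hw.nn q
  have h8 := f_S0 (p := p) (q := q) hw
  have h9 := f_SW h hx hw
  rw [hp, abs_zero, mul_zero] at h4
  have h10 : w q * |x q| ≤ w q * (1 / 2) := mul_le_mul_of_nonneg_left hq2 h7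
  linarith

/-- `x p = 0`, wrong signs only at zeros, `|x q| < a q`, the section is a square -/
lemma good_O3 (h : Nrm K p q) (hs : Sq K p q) (hx : x ∈ K) (hq : Rt σ x q) (hp : x p = 0)
    (hB : ∀ b, b ≠ p → b ≠ q → ¬ Rt σ x b → x b = 0)
    (ha : ∀ b, b ≠ p → b ≠ q → a b = 1) (hap : a p = 1 / 4) (haq : |x q| < a q) :
    Good K x σ a := by
  intro w hw
  rw [f_gain h σ x w a ha, cs_rt hq, cs_nrt (nrt_zero hp), hap]
  have h1 := f_zero h hx hw hB
  have h2 := f_E1 h hw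
  have h3 := f_E3 h hs hw
  have h4 := f_Q h hx hw
  have h5 := f_pos h hw
  have h6 := hw.nn p
  have h7 := hw.nn q
  have h8 := f_S0 (p := p) (q := q) hw
  have h9 := f_SW h hx hw
  have h10 := f_EW (p := p) (q := q) σ hw
  rw [hp, abs_zero, mul_zero] at h2 h3
  by_cases hz : 0 < w q
  · have h11 : w q * |x q| < a q * w q := by nlinarith
    linarith
  · have h15 : w q = 0 := le_antisymm (not_lt.1 hz) h7
    rw [h15] at h2 h3 h4 h5 ⊢
    linarith

end tokens

end Pool.Agent.Zk99.HC
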