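import Mathlib
import Pool.Agent.Zk99.HC.Tokens

/-!
# Compactness
-/

set_option autoImplicit false

namespace Pool.Agent.Zk99.HC

open Finset Filter Topology
open Pool.Agent.N148.HD (Unc unc_le sol_of_unc)

variable {ι : Type} [Fintype ι] [DecidableEq ι]

/-- `∑ l_b |y_b| + |y_q| ≤ 1` for all `y` in `K`, where `l` are nonnegative weights on the
coordinates other than `p`, `q` with the sum `1` -/
def UU (K : Set (ι → ℝ)) (p q : ι) (l : ι → ℝ) : Prop :=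
  (∀ i, 0 ≤ l i) ∧ ∑ b ∈ bs p q, l b = 1 ∧ ∀ y ∈ K, ∑ b ∈ bs p q, l b * |y b| + |y q| ≤ 1

/-- the approximate condition -/
def AU (K : Set (ι → ℝ)) (p q : ι) (η : ℝ) (w : ι → ℝ) : Prop :=
  (∀ i, 0 ≤ w i) ∧ w q = 1 ∧ 1 - η ≤ ∑ b ∈ bs p q, w b ∧ w p ≤ η ∧
    ∀ y ∈ K, ∑ i, w i * |y i| ≤ 1 + 3 * η

lemma AU.mono {K : Set (ι → ℝ)} {p q : ι} {η η' : ℝ} {w : ι → ℝ} (h : AU K p q η w)
    (hη : η ≤ η') : AU K p q η' w := by
  obtain ⟨h1, h2, h3, h4, h5⟩ := h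
  exact ⟨h1, h2, by linarith, by linarith, fun y hy => (h5 y hy).trans (by linarith)⟩

lemma compact_step {K : Set (ι → ℝ)} {p q : ι} (h : Nrm K p q) (Γ : Set (ι → ℝ))
    (hΓ : IsClosed Γ) (hno : ∀ l ∈ Γ, ¬ UU K p q l) :
    ∃ η₀ : ℝ, 0 < η₀ ∧ η₀ ≤ 1 / 8 ∧ ∀ η, η ≤ η₀ → ∀ w ∈ Γ, ¬ AU K p q η w := by
  by_contra hcon
  push Not at hcon
  have h1 : ∀ m : ℕ, ∃ w ∈ Γ, AU K p q (1 / ((m : ℝ) + 8)) w := by
    intro m
    have hm : (0 : ℝ) ≤ m := Nat.cast_nonneg m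
    obtain ⟨η, h1, w, h2, h3⟩ := hcon (1 / ((m : ℝ) + 8)) (by positivity)
      (one_div_le_one_div_of_le (by norm_num) (by linarith))
    exact ⟨w, h2, h3.mono h1⟩
  choose w hwΓ hw using h1
  have hbox : ∀ m, w m ∈ Set.Icc (0 : ι → ℝ) (fun _ => 2) := by
    intro m
    obtain ⟨h1, h2, h3, h4, h5⟩ := hw m
    have hm : (0 : ℝ) ≤ m := Nat.cast_nonneg m
    have hη : 1 / ((m : ℝ) + 8) ≤ 1 / 8 := one_div_le_one_div_of_le (by norm_num) (by linarith)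
    refine ⟨fun i => h1 i, fun i => ?_⟩
    show w m i ≤ 2
    by_cases hip : i = p
    · rw [hip]
      linarith
    by_cases hiq : i = q
    · rw [hiq, h2]
      norm_num
    · have h6 := h5 _ h.bx
      have h7 : w m i * |if i = p ∨ i = q then (0 : ℝ) else 1| ≤
          ∑ j, w m j * |if j = p ∨ j = q then (0 : ℝ) else 1| :=
        Finset.single_le_sum (f := fun j => w m j * |if j = p ∨ j = q then (0 : ℝ) else 1|)
          (fun j _ => mul_nonneg (h1 j) (abs_nonneg _)) (mem_univ i)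
      rw [if_neg (by tauto), abs_one, mul_one] at h7
      linarith
  obtain ⟨l, hl, φ, hφ, hlim⟩ := isCompact_Icc.tendsto_subseq hbox
  have hη0 : Tendsto (fun m : ℕ => 1 / (((φ m : ℕ) : ℝ) + 8)) atTop (𝓝 0) := by
    have h2 : Tendsto (fun m : ℕ => ((φ m : ℕ) : ℝ) + 8) atTop atTop :=
      tendsto_atTop_add_const_right _ _ (tendsto_natCast_atTop_atTop.comp hφ.tendsto_atTop)
    simp only [one_div]
    exact h2.inv_tendsto_atTop
  have hli : ∀ i, Tendsto (fun m => w (φ m) i) atTop (𝓝 (l i)) := fun i =>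
    (tendsto_pi_nhds.1 hlim) i
  have hlΓ : l ∈ Γ := hΓ.mem_of_tendsto hlim (Eventually.of_forall fun m => hwΓ (φ m))
  have hl0 : ∀ i, 0 ≤ l i := fun i => hl.1 i
  have hlp : l p ≤ 0 := le_of_tendsto_of_tendsto' (hli p) hη0 fun m => (hw (φ m)).2.2.2.1
  have hlq : l q = 1 := by
    refine tendsto_nhds_unique (hli q) ?_
    simp only [fun m => (hw (φ m)).2.1]
    exact tendsto_const_nhds
  have hly : ∀ y ∈ K, ∑ i, l i * |y i| ≤ 1 := by
    intro y hy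
    have h2 : Tendsto (fun m => ∑ i, w (φ m) i * |y i|) atTop (𝓝 (∑ i, l i * |y i|)) :=
      tendsto_finsetSum _ fun i _ => (hli i).mul_const _
    have h3 : Tendsto (fun m : ℕ => 1 + 3 * (1 / (((φ m : ℕ) : ℝ) + 8))) atTop (𝓝 (1 + 3 * 0)) :=
      tendsto_const_nhds.add (hη0.const_mul 3)
    rw [mul_zero, add_zero] at h3
    exact le_of_tendsto_of_tendsto' h2 h3 fun m => (hw (φ m)).2.2.2.2 y hy
  have hlp' : l p = 0 := le_antisymm hlp (hl0 p)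
  have hsum : 1 ≤ ∑ b ∈ bs p q, l b := by
    have h2 : Tendsto (fun m => ∑ b ∈ bs p q, w (φ m) b) atTop (𝓝 (∑ b ∈ bs p q, l b)) :=
      tendsto_finsetSum _ fun i _ => hli i
    have h3 : Tendsto (fun m : ℕ => 1 - (1 / (((φ m : ℕ) : ℝ) + 8))) atTop (𝓝 (1 - 0)) :=
      tendsto_const_nhds.sub hη0
    rw [sub_zero] at h3
    exact le_of_tendsto_of_tendsto' h3 h2 fun m => (hw (φ m)).2.2.1
  have hly' : ∀ y ∈ K, ∑ b ∈ bs p q, l b * |y b| + |y q| ≤ 1 := by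
    intro y hy
    have h2 := hly y hy
    rw [sum_split h.pq, hlp', hlq] at h2
    linarith
  refine hno l hlΓ ⟨hl0, le_antisymm ?_ hsum, hly'⟩
  have h2 := hly' _ h.bx
  rw [if_pos (Or.inr rfl), abs_zero, add_zero] at h2
  refine le_trans (le_of_eq ?_) h2
  refine Finset.sum_congr rfl fun b hb => ?_
  rw [mem_bs] at hb
  rw [if_neg (by tauto), abs_one, mul_one]

/-- rescaling a failure -/
lemma au_of_fail {K : Set (ι → ℝ)} {p q : ι} {η : ℝ} {w : ι → ℝ}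
    (h0 : ∀ i, 0 ≤ w i) (h1 : 0 < w q) (h2 : (1 - η) * w q ≤ WW p q w) (h3 : w p ≤ η * w q)
    (h4 : ∀ y ∈ K, ∑ i, w i * |y i| ≤ (1 + 3 * η) * w q) :
    AU K p q η fun i => w i / w q := by
  refine ⟨fun i => div_nonneg (h0 i) h1.le, div_self h1.ne', ?_, (div_le_iff₀ h1).2 h3,
    fun y hy => ?_⟩
  · rw [← Finset.sum_div, le_div_iff₀ h1]
    exact h2
  · have h5 := h4 y hy
    have e : ∑ i, w i / w q * |y i| = (∑ i, w i * |y i|) / w q := by
      rw [Finset.sum_div]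
      refine Finset.sum_congr rfl fun i _ => ?_
      ring
    rw [e, div_le_iff₀ h1]
    exact h5

/-- the token with the weights `u`, `v` at `p`, `q` and `c` at `b₀` -/
def tk (p q b₀ : ι) (u v c : ℝ) (i : ι) : ℝ :=
  if i = p then u else if i = q then v else if i = b₀ then c else 1

section

variable {p q b₀ : ι} {u v c : ℝ}

omit [Fintype ι] in
lemma tk_p : tk p q b₀ u v c p = u := if_pos rfl

omit [Fintype ι] in
lemma tk_q (hpq : p ≠ q) : tk p q b₀ u v c q = v := by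
  unfold tk
  rw [if_neg hpq.symm, if_pos rfl]

omit [Fintype ι] in
lemma tk_b₀ (h : b₀ ≠ p ∧ b₀ ≠ q) : tk p q b₀ u v c b₀ = c := by
  unfold tk
  rw [if_neg h.1, if_neg h.2, if_pos rfl]

omit [Fintype ι] in
lemma tk_b {b : ι} (h1 : b ≠ p) (h2 : b ≠ q) (h3 : b ≠ b₀) : tk p q b₀ u v c b = 1 := by
  unfold tk
  rw [if_neg h1, if_neg h2, if_neg h3]

omit [Fintype ι] in
lemma tk_1 {b : ι} (h1 : b ≠ p) (h2 : b ≠ q) : tk p q b₀ u v 1 b = 1 := by
  unfold tk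
  rw [if_neg h1, if_neg h2, ite_self]

omit [Fintype ι] in
lemma tk_pos (hu : 0 < u) (hv : 0 < v) (hc : 0 < c) (i : ι) : 0 < tk p q b₀ u v c i := by
  unfold tk
  split_ifs
  · exact hu
  · exact hv
  · exact hc
  · exact one_pos

end

/-- the token `a` is good for the points with `x p ≠ 0`, `x q ≠ 0`, if wrong signs are only taken
at zeros -/
def GG (K : Set (ι → ℝ)) (p q : ι) (a : ι → ℝ) (x : ι → ℝ) : Prop :=
  ∀ σ, Rt σ x p → Rt σ x q → (∀ b, b ≠ p → b ≠ q → ¬ Rt σ x b → x b = 0) → Good K x σ a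

/-- if there is no `l` then the token `P` is good for all points -/
lemma good_of_no {K : Set (ι → ℝ)} {p q : ι} (h : Nrm K p q) (hno : ∀ l, ¬ UU K p q l) :
    ∃ η₀ : ℝ, 0 < η₀ ∧ η₀ ≤ 1 / 8 ∧ ∀ η, 0 < η → η ≤ η₀ → ∀ a : ι → ℝ,
      (∀ b, b ≠ p → b ≠ q → a b = 1) → a p = 8 → a q = 1 - η → ∀ x ∈ K, GG K p q a x := by
  obtain ⟨η₀, h1, h2, h3⟩ := compact_step h Set.univ isClosed_univ (fun l _ => hno l)
  refine ⟨η₀, h1, h2, fun η hη0 hη a ha hap haq x hx σ hp hq hB w hw => ?_⟩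
  by_contra hcon
  push Not at hcon
  obtain ⟨k1, k2, k3, k4⟩ := fail_P2 h hx hp hq hB hη0 ha hap haq hw hcon
  exact h3 η hη _ (Set.mem_univ _) (au_of_fail hw.nn k1 k2 k3 k4)

/-- if the only `l` is the unit vector at `b₀` then the token `P` with a slightly smaller weight at
`b₀` is good for all points -/
lemma good_of_only {K : Set (ι → ℝ)} {p q : ι} (h : Nrm K p q) {b₀ : ι} (hb₀ : b₀ ≠ p ∧ b₀ ≠ q)
    (honly : ∀ l, UU K p q l → 1 / 2 < l b₀) :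
    ∃ η₀ : ℝ, 0 < η₀ ∧ η₀ ≤ 1 / 8 ∧ ∀ η, 0 < η → η ≤ η₀ → ∀ a : ι → ℝ,
      (∀ b, b ≠ p → b ≠ q → b ≠ b₀ → a b = 1) → a b₀ = 1 - 2 * η → a p = 8 → a q = 1 - η →
      ∀ x ∈ K, GG K p q a x := by
  obtain ⟨η₀, h1, h2, h3⟩ := compact_step h {w | w b₀ ≤ 1 / 2}
    (isClosed_le (continuous_apply b₀) continuous_const)
    (fun l hl hU => absurd (honly l hU) (not_lt.2 hl))
  refine ⟨η₀, h1, h2, fun η hη0 hη a ha hab hap haq x hx σ hp hq hB w hw => ?_⟩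
  by_contra hcon
  push Not at hcon
  obtain ⟨k1, k2, k3, k4, k5⟩ := fail_P2' h hx hp hq hB hb₀ hη0 (hη.trans h2) ha hab hap haq hw
    hcon
  refine h3 η hη _ ?_ (au_of_fail hw.nn k1 k2 k3 k5)
  show w b₀ / w q ≤ 1 / 2
  rw [div_le_iff₀ k1]
  exact k4

end Pool.Agent.Zk99.HC
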