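import Mathlib
import Pool.Agent.Zk99.HC.Compact

/-!
# The three schemes
-/

set_option autoImplicit false

namespace Pool.Agent.Zk99.HC

open Finset Filter Topology
open Pool.Agent.N148.HD (Unc unc_le sol_of_unc)

variable {ι : Type} [Fintype ι] [DecidableEq ι]

/-- the parity -/
def par (p q : ι) (σ : ι → ℤˣ) : ℤˣ := ∏ b ∈ bs p q, σ b

lemma par_swap (p q : ι) (σ : ι → ℤˣ) : par q p σ = par p q σ := by
  unfold par
  rw [bs_swap]

lemma par_congr {p q : ι} {σ τ : ι → ℤˣ} (h : ∀ b, b ≠ p → b ≠ q → σ b = τ b) :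
    par p q σ = par p q τ :=
  Finset.prod_congr rfl fun b hb => h b (mem_bs.1 hb).1 (mem_bs.1 hb).2

lemma sel {p q : ι} (r : ι → ℤˣ) {z : ι} (hz : z ≠ p ∧ z ≠ q) (ε : ℤˣ) :
    ∃ σ : ι → ℤˣ, (∀ i, i ≠ z → σ i = r i) ∧ par p q σ = ε := by
  refine ⟨Function.update r z (ε * ∏ b ∈ (bs p q).erase z, r b),
    fun i hi => Function.update_of_ne hi _ _, ?_⟩
  unfold par
  rw [← Finset.mul_prod_erase _ _ (mem_bs.2 hz), Function.update_self]
  have : ∏ b ∈ (bs p q).erase z,
      Function.update r z (ε * ∏ b ∈ (bs p q).erase z, r b) b = ∏ b ∈ (bs p q).erase z, r b :=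
    Finset.prod_congr rfl fun b hb => Function.update_of_ne (Finset.ne_of_mem_erase hb) _ _
  rw [this, mul_assoc, Int.units_mul_self, mul_one]

omit [Fintype ι] in
lemma reach0 {p q : ι} (hpq : p ≠ q) (sp sq : ℤˣ) (r : ι → ℤˣ) :
    ∃ σ : ι → ℤˣ, σ p = sp ∧ σ q = sq ∧ ∀ b, b ≠ p → b ≠ q → σ b = r b := by
  refine ⟨fun i => if i = p then sp else if i = q then sq else r i, if_pos rfl, ?_, ?_⟩
  · show (if q = p then sp else if q = q then sq else r q) = sq
    rw [if_neg hpq.symm, if_pos rfl]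
  · intro b h1 h2
    show (if b = p then sp else if b = q then sq else r b) = r b
    rw [if_neg h1, if_neg h2]

lemma reach1 {p q : ι} (hpq : p ≠ q) (sp sq : ℤˣ) (r : ι → ℤˣ) {z : ι} (hz : z ≠ p ∧ z ≠ q)
    (ε : ℤˣ) :
    ∃ σ : ι → ℤˣ, σ p = sp ∧ σ q = sq ∧ (∀ b, b ≠ p → b ≠ q → b ≠ z → σ b = r b) ∧
      par p q σ = ε := by
  obtain ⟨τ, h1, h2, h3⟩ := reach0 hpq sp sq r
  obtain ⟨σ, h4, h5⟩ := sel τ hz ε
  refine ⟨σ, ?_, ?_, ?_, h5⟩
  · rw [h4 p hz.1.symm, h1]
  · rw [h4 q hz.2.symm, h2]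
  · intro b hb1 hb2 hb3
    rw [h4 b hb3, h3 b hb1 hb2]

open Classical in
/-- the signs of the coordinates -/
noncomputable def sg (x : ι → ℝ) (i : ι) : ℤˣ := if 0 < x i then 1 else -1

omit [Fintype ι] [DecidableEq ι] in
lemma rt_of {σ : ι → ℤˣ} {x : ι → ℝ} {i : ι} (h : σ i = sg x i) (hx : x i ≠ 0) : Rt σ x i := by
  unfold Rt
  rw [h]
  unfold sg
  split_ifs with h1
  · simpa using h1
  · have : x i < 0 := lt_of_le_of_ne (not_lt.1 h1) hx
    simpa using this

omit [Fintype ι] [DecidableEq ι] in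
lemma zero_of_nrt {σ : ι → ℤˣ} {x : ι → ℝ} {i : ι} (h : σ i = sg x i) (hn : ¬ Rt σ x i) :
    x i = 0 := by
  by_contra hx
  exact hn (rt_of h hx)

lemma units_ne {s t : ℤˣ} (h : s ≠ t) : s = -t := by
  rcases Int.units_eq_one_or s with rfl | rfl <;> rcases Int.units_eq_one_or t with rfl | rfl <;>
    simp at h ⊢

lemma units_neg_ne (s : ℤˣ) : s ≠ -s := by
  rcases Int.units_eq_one_or s with rfl | rfl <;> decide

open Classical in
/-- **Option I.** -/
theorem optI {K : Set (ι → ℝ)} {p q : ι} (h : Nrm K p q) {P Q O : ι → ℝ}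
    (hP : ∀ i, 0 < P i) (hQ : ∀ i, 0 < Q i) (hO : ∀ i, 0 < O i)
    (hP0 : ∀ x ∈ K, ∀ σ, Rt σ x p → x q = 0 →
      (∀ b, b ≠ p → b ≠ q → ¬ Rt σ x b → |x b| ≤ 1 / 2) → Good K x σ P)
    (hQ0 : ∀ x ∈ K, ∀ σ, Rt σ x q → x p = 0 →
      (∀ b, b ≠ p → b ≠ q → ¬ Rt σ x b → |x b| ≤ 1 / 2) → Good K x σ Q)
    (hPQ : ∀ x ∈ K, x p ≠ 0 → x q ≠ 0 → GG K p q P x ∨ GG K p q Q x)
    (hO0 : ∀ x ∈ K, ∀ σ, x p = 0 → x q = 0 →
      (∀ b, b ≠ p → b ≠ q → ¬ Rt σ x b → x b = 0) → Good K x σ O)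
    (hO1 : ∀ x ∈ K, ∀ σ, Rt σ x p → x q = 0 → (∀ b, b ≠ p → b ≠ q → Rt σ x b) → Good K x σ O)
    (hO2 : ∀ x ∈ K, ∀ σ, Rt σ x q → x p = 0 → (∀ b, b ≠ p → b ≠ q → Rt σ x b) →
      (∀ b, b ≠ p → b ≠ q → 1 / 2 < |x b|) → Good K x σ O) :
    ∃ T : Finset (ι → ℝ), T.card ≤ 2 ^ Fintype.card ι ∧
      K ⊆ ⋃ t ∈ T, (fun x => t + x) '' interior K := by
  have hpq := h.pq
  set PQ : ι → ℝ := tk p q p 8 8 1 with hPQdef
  set a : (ι → ℤˣ) → ι → ℝ := fun σ =>
    if σ p = par p q σ then (if σ q = par p q σ then O else Q)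
    else (if σ q = par p q σ then P else PQ) with ha
  refine cover_of_good h.cvx h.cmp h.int h.unc a (fun σ i => ?_) fun x hx => ?_
  · simp only [ha]
    split_ifs
    · exact hO i
    · exact hQ i
    · exact hP i
    · exact tk_pos (by norm_num) (by norm_num) one_pos i
  have aO : ∀ σ, σ p = par p q σ → σ q = par p q σ → a σ = O := by
    intro σ h1 h2
    simp only [ha]
    rw [if_pos h1, if_pos h2]
  have aQ : ∀ σ, σ p = par p q σ → σ q ≠ par p q σ → a σ = Q := by
    intro σ h1 h2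
    simp only [ha]
    rw [if_pos h1, if_neg h2]
  have aP : ∀ σ, σ p ≠ par p q σ → σ q = par p q σ → a σ = P := by
    intro σ h1 h2
    simp only [ha]
    rw [if_neg h1, if_pos h2]
  have aPQ : ∀ σ, σ p ≠ par p q σ → σ q ≠ par p q σ → a σ = PQ := by
    intro σ h1 h2
    simp only [ha]
    rw [if_neg h1, if_neg h2]
  have hz0 : (0 : ℝ) ≤ 1 / 2 := by norm_num
  by_cases hp : x p = 0
  · by_cases hq : x q = 0
    · -- both zero
      obtain ⟨σ, h1, h2, h3⟩ := reach0 hpq (par p q (sg x)) (par p q (sg x)) (sg x)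
      have h4 := par_congr h3
      refine ⟨σ, ?_⟩
      rw [aO σ (h1.trans h4.symm) (h2.trans h4.symm)]
      exact hO0 x hx σ hp hq fun b hb1 hb2 hn => zero_of_nrt (h3 b hb1 hb2) hn
    · -- `x p = 0`, `x q ≠ 0`
      by_cases hz : ∃ z, (z ≠ p ∧ z ≠ q) ∧ |x z| ≤ 1 / 2
      · obtain ⟨z, hz, hz2⟩ := hz
        obtain ⟨σ, h1, h2, h3, h4⟩ := reach1 hpq (-sg x q) (sg x q) (sg x) hz (-sg x q)
        refine ⟨σ, ?_⟩
        rw [aQ σ (h1.trans h4.symm) (by rw [h2, h4]; exact units_neg_ne _)]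
        refine hQ0 x hx σ (rt_of h2 hq) hp fun b hb1 hb2 hn => ?_
        by_cases hbz : b = z
        · rw [hbz]
          exact hz2
        · rw [zero_of_nrt (h3 b hb1 hb2 hbz) hn, abs_zero]
          exact hz0
      · push Not at hz
        have hne : ∀ b, b ≠ p → b ≠ q → x b ≠ 0 := by
          intro b hb1 hb2 h0
          have := hz b ⟨hb1, hb2⟩
          rw [h0, abs_zero] at this
          linarith
        by_cases hs : sg x q = par p q (sg x)
        · obtain ⟨σ, h1, h2, h3⟩ := reach0 hpq (par p q (sg x)) (sg x q) (sg x)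
          have h4 := par_congr h3
          refine ⟨σ, ?_⟩
          rw [aO σ (h1.trans h4.symm) (h2.trans (hs.trans h4.symm))]
          exact hO2 x hx σ (rt_of h2 hq) hp (fun b hb1 hb2 =>
            rt_of (h3 b hb1 hb2) (hne b hb1 hb2)) fun b hb1 hb2 => hz b ⟨hb1, hb2⟩
        · obtain ⟨σ, h1, h2, h3⟩ := reach0 hpq (par p q (sg x)) (sg x q) (sg x)
          have h4 := par_congr h3
          refine ⟨σ, ?_⟩
          rw [aQ σ (h1.trans h4.symm) (by rw [h2, h4]; exact hs)]
          refine hQ0 x hx σ (rt_of h2 hq) hp fun b hb1 hb2 hn => ?_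
          exact absurd (rt_of (h3 b hb1 hb2) (hne b hb1 hb2)) hn
  · by_cases hq : x q = 0
    · -- `x p ≠ 0`, `x q = 0`
      by_cases hz : ∃ z, (z ≠ p ∧ z ≠ q) ∧ |x z| ≤ 1 / 2
      · obtain ⟨z, hz, hz2⟩ := hz
        obtain ⟨σ, h1, h2, h3, h4⟩ := reach1 hpq (sg x p) (-sg x p) (sg x) hz (-sg x p)
        refine ⟨σ, ?_⟩
        rw [aP σ (by rw [h1, h4]; exact units_neg_ne _) (h2.trans h4.symm)]
        refine hP0 x hx σ (rt_of h1 hp) hq fun b hb1 hb2 hn => ?_
        by_cases hbz : b = z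
        · rw [hbz]
          exact hz2
        · rw [zero_of_nrt (h3 b hb1 hb2 hbz) hn, abs_zero]
          exact hz0
      · push Not at hz
        have hne : ∀ b, b ≠ p → b ≠ q → x b ≠ 0 := by
          intro b hb1 hb2 h0
          have := hz b ⟨hb1, hb2⟩
          rw [h0, abs_zero] at this
          linarith
        by_cases hs : sg x p = par p q (sg x)
        · obtain ⟨σ, h1, h2, h3⟩ := reach0 hpq (sg x p) (par p q (sg x)) (sg x)
          have h4 := par_congr h3
          refine ⟨σ, ?_⟩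
          rw [aO σ (h1.trans (hs.trans h4.symm)) (h2.trans h4.symm)]
          exact hO1 x hx σ (rt_of h1 hp) hq fun b hb1 hb2 =>
            rt_of (h3 b hb1 hb2) (hne b hb1 hb2)
        · obtain ⟨σ, h1, h2, h3⟩ := reach0 hpq (sg x p) (par p q (sg x)) (sg x)
          have h4 := par_congr h3
          refine ⟨σ, ?_⟩
          rw [aP σ (by rw [h1, h4]; exact hs) (h2.trans h4.symm)]
          refine hP0 x hx σ (rt_of h1 hp) hq fun b hb1 hb2 hn => ?_
          exact absurd (rt_of (h3 b hb1 hb2) (hne b hb1 hb2)) hn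
    · -- both nonzero
      by_cases hz : ∃ z, (z ≠ p ∧ z ≠ q) ∧ x z = 0
      · obtain ⟨z, hz, hz2⟩ := hz
        by_cases hs : sg x p = sg x q
        · obtain ⟨σ, h1, h2, h3, h4⟩ := reach1 hpq (sg x p) (sg x q) (sg x) hz (-sg x p)
          refine ⟨σ, ?_⟩
          rw [aPQ σ (by rw [h1, h4]; exact units_neg_ne _)
            (by rw [h2, h4, ← hs]; exact units_neg_ne _)]
          refine good_PQ h hx (rt_of h1 hp) (rt_of h2 hq) (fun b hb1 hb2 hn => ?_)
            (fun b hb1 hb2 => tk_1 hb1 hb2) tk_p (tk_q hpq)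
          have hb0 : x b = 0 := by
            by_cases hbz : b = z
            · rw [hbz]
              exact hz2
            · exact zero_of_nrt (h3 b hb1 hb2 hbz) hn
          rw [hb0, abs_zero]
          exact hz0
        · rcases hPQ x hx hp hq with hG | hG
          · obtain ⟨σ, h1, h2, h3, h4⟩ := reach1 hpq (sg x p) (sg x q) (sg x) hz (sg x q)
            refine ⟨σ, ?_⟩
            rw [aP σ (by rw [h1, h4]; exact hs) (h2.trans h4.symm)]
            refine hG σ (rt_of h1 hp) (rt_of h2 hq) fun b hb1 hb2 hn => ?_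
            by_cases hbz : b = z
            · rw [hbz]
              exact hz2
            · exact zero_of_nrt (h3 b hb1 hb2 hbz) hn
          · obtain ⟨σ, h1, h2, h3, h4⟩ := reach1 hpq (sg x p) (sg x q) (sg x) hz (sg x p)
            refine ⟨σ, ?_⟩
            rw [aQ σ (h1.trans h4.symm) (by rw [h2, h4]; exact Ne.symm hs)]
            refine hG σ (rt_of h1 hp) (rt_of h2 hq) fun b hb1 hb2 hn => ?_
            by_cases hbz : b = z
            · rw [hbz]
              exact hz2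
            · exact zero_of_nrt (h3 b hb1 hb2 hbz) hn
      · push Not at hz
        refine ⟨sg x, good_full (fun i => ?_) fun i => ?_⟩
        · simp only [ha]
          split_ifs
          · exact hO i
          · exact hQ i
          · exact hP i
          · exact tk_pos (by norm_num) (by norm_num) one_pos i
        · refine rt_of rfl ?_
          by_cases h1 : i = p
          · rw [h1]
            exact hp
          · by_cases h2 : i = q
            · rw [h2]
              exact hq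
            · exact hz i ⟨h1, h2⟩

open Classical in
/-- **Option II.** -/
theorem optII {K : Set (ι → ℝ)} {p q : ι} (h : Nrm K p q) {P Q Op Oq : ι → ℝ}
    (hP : ∀ i, 0 < P i) (hQ : ∀ i, 0 < Q i) (hOp : ∀ i, 0 < Op i) (hOq : ∀ i, 0 < Oq i)
    (hP0 : ∀ x ∈ K, ∀ σ, Rt σ x p → x q = 0 →
      (∀ b, b ≠ p → b ≠ q → ¬ Rt σ x b → |x b| ≤ 1 / 2) → Good K x σ P)
    (hQ0 : ∀ x ∈ K, ∀ σ, Rt σ x q → x p = 0 →
      (∀ b, b ≠ p → b ≠ q → ¬ Rt σ x b → |x b| ≤ 1 / 2) → Good K x σ Q)
    (hPG : ∀ x ∈ K, GG K p q P x) (hQG : ∀ x ∈ K, GG K p q Q x)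
    (hO0 : ∀ x ∈ K, ∀ σ, x p = 0 → x q = 0 →
      (∀ b, b ≠ p → b ≠ q → ¬ Rt σ x b → x b = 0) → Good K x σ Op)
    (hO1 : ∀ x ∈ K, ∀ σ, Rt σ x p → x q = 0 → (∀ b, b ≠ p → b ≠ q → Rt σ x b) → Good K x σ Op)
    (hO2 : ∀ x ∈ K, ∀ σ, Rt σ x q → x p = 0 → (∀ b, b ≠ p → b ≠ q → Rt σ x b) →
      Good K x σ Oq) :
    ∃ T : Finset (ι → ℝ), T.card ≤ 2 ^ Fintype.card ι ∧
      K ⊆ ⋃ t ∈ T, (fun x => t + x) '' interior K := by
  have hpq := h.pq
  set a : (ι → ℤˣ) → ι → ℝ := fun σ =>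
    if σ p = par p q σ then (if σ q = par p q σ then Op else Q)
    else (if σ q = par p q σ then Oq else P) with ha
  refine cover_of_good h.cvx h.cmp h.int h.unc a (fun σ i => ?_) fun x hx => ?_
  · simp only [ha]
    split_ifs
    · exact hOp i
    · exact hQ i
    · exact hOq i
    · exact hP i
  have aOp : ∀ σ, σ p = par p q σ → σ q = par p q σ → a σ = Op := by
    intro σ h1 h2
    simp only [ha]
    rw [if_pos h1, if_pos h2]
  have aQ : ∀ σ, σ p = par p q σ → σ q ≠ par p q σ → a σ = Q := by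
    intro σ h1 h2
    simp only [ha]
    rw [if_pos h1, if_neg h2]
  have aOq : ∀ σ, σ p ≠ par p q σ → σ q = par p q σ → a σ = Oq := by
    intro σ h1 h2
    simp only [ha]
    rw [if_neg h1, if_pos h2]
  have aP : ∀ σ, σ p ≠ par p q σ → σ q ≠ par p q σ → a σ = P := by
    intro σ h1 h2
    simp only [ha]
    rw [if_neg h1, if_neg h2]
  have hz0 : (0 : ℝ) ≤ 1 / 2 := by norm_num
  by_cases hp : x p = 0
  · by_cases hq : x q = 0
    · -- both zero
      obtain ⟨σ, h1, h2, h3⟩ := reach0 hpq (par p q (sg x)) (par p q (sg x)) (sg x)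
      have h4 := par_congr h3
      refine ⟨σ, ?_⟩
      rw [aOp σ (h1.trans h4.symm) (h2.trans h4.symm)]
      exact hO0 x hx σ hp hq fun b hb1 hb2 hn => zero_of_nrt (h3 b hb1 hb2) hn
    · -- `x p = 0`, `x q ≠ 0`
      by_cases hz : ∃ z, (z ≠ p ∧ z ≠ q) ∧ |x z| ≤ 1 / 2
      · obtain ⟨z, hz, hz2⟩ := hz
        obtain ⟨σ, h1, h2, h3, h4⟩ := reach1 hpq (-sg x q) (sg x q) (sg x) hz (-sg x q)
        refine ⟨σ, ?_⟩
        rw [aQ σ (h1.trans h4.symm) (by rw [h2, h4]; exact units_neg_ne _)]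
        refine hQ0 x hx σ (rt_of h2 hq) hp fun b hb1 hb2 hn => ?_
        by_cases hbz : b = z
        · rw [hbz]
          exact hz2
        · rw [zero_of_nrt (h3 b hb1 hb2 hbz) hn, abs_zero]
          exact hz0
      · push Not at hz
        have hne : ∀ b, b ≠ p → b ≠ q → x b ≠ 0 := by
          intro b hb1 hb2 h0
          have := hz b ⟨hb1, hb2⟩
          rw [h0, abs_zero] at this
          linarith
        by_cases hs : sg x q = par p q (sg x)
        · obtain ⟨σ, h1, h2, h3⟩ := reach0 hpq (-par p q (sg x)) (sg x q) (sg x)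
          have h4 := par_congr h3
          refine ⟨σ, ?_⟩
          rw [aOq σ (by rw [h1, h4]; exact (units_neg_ne _).symm) (h2.trans (hs.trans h4.symm))]
          exact hO2 x hx σ (rt_of h2 hq) hp fun b hb1 hb2 =>
            rt_of (h3 b hb1 hb2) (hne b hb1 hb2)
        · obtain ⟨σ, h1, h2, h3⟩ := reach0 hpq (par p q (sg x)) (sg x q) (sg x)
          have h4 := par_congr h3
          refine ⟨σ, ?_⟩
          rw [aQ σ (h1.trans h4.symm) (by rw [h2, h4]; exact hs)]
          refine hQ0 x hx σ (rt_of h2 hq) hp fun b hb1 hb2 hn => ?_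
          exact absurd (rt_of (h3 b hb1 hb2) (hne b hb1 hb2)) hn
  · by_cases hq : x q = 0
    · -- `x p ≠ 0`, `x q = 0`
      by_cases hz : ∃ z, (z ≠ p ∧ z ≠ q) ∧ |x z| ≤ 1 / 2
      · obtain ⟨z, hz, hz2⟩ := hz
        obtain ⟨σ, h1, h2, h3, h4⟩ := reach1 hpq (sg x p) (sg x p) (sg x) hz (-sg x p)
        refine ⟨σ, ?_⟩
        rw [aP σ (by rw [h1, h4]; exact units_neg_ne _) (by rw [h2, h4]; exact units_neg_ne _)]
        refine hP0 x hx σ (rt_of h1 hp) hq fun b hb1 hb2 hn => ?_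
        by_cases hbz : b = z
        · rw [hbz]
          exact hz2
        · rw [zero_of_nrt (h3 b hb1 hb2 hbz) hn, abs_zero]
          exact hz0
      · push Not at hz
        have hne : ∀ b, b ≠ p → b ≠ q → x b ≠ 0 := by
          intro b hb1 hb2 h0
          have := hz b ⟨hb1, hb2⟩
          rw [h0, abs_zero] at this
          linarith
        by_cases hs : sg x p = par p q (sg x)
        · obtain ⟨σ, h1, h2, h3⟩ := reach0 hpq (sg x p) (par p q (sg x)) (sg x)
          have h4 := par_congr h3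
          refine ⟨σ, ?_⟩
          rw [aOp σ (h1.trans (hs.trans h4.symm)) (h2.trans h4.symm)]
          exact hO1 x hx σ (rt_of h1 hp) hq fun b hb1 hb2 =>
            rt_of (h3 b hb1 hb2) (hne b hb1 hb2)
        · obtain ⟨σ, h1, h2, h3⟩ := reach0 hpq (sg x p) (-par p q (sg x)) (sg x)
          have h4 := par_congr h3
          refine ⟨σ, ?_⟩
          rw [aP σ (by rw [h1, h4]; exact hs) (by rw [h2, h4]; exact (units_neg_ne _).symm)]
          refine hP0 x hx σ (rt_of h1 hp) hq fun b hb1 hb2 hn => ?_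
          exact absurd (rt_of (h3 b hb1 hb2) (hne b hb1 hb2)) hn
    · -- both nonzero
      by_cases hz : ∃ z, (z ≠ p ∧ z ≠ q) ∧ x z = 0
      · obtain ⟨z, hz, hz2⟩ := hz
        by_cases hs : sg x p = sg x q
        · obtain ⟨σ, h1, h2, h3, h4⟩ := reach1 hpq (sg x p) (sg x q) (sg x) hz (-sg x p)
          refine ⟨σ, ?_⟩
          rw [aP σ (by rw [h1, h4]; exact units_neg_ne _)
            (by rw [h2, h4, ← hs]; exact units_neg_ne _)]
          refine hPG x hx σ (rt_of h1 hp) (rt_of h2 hq) fun b hb1 hb2 hn => ?_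
          by_cases hbz : b = z
          · rw [hbz]
            exact hz2
          · exact zero_of_nrt (h3 b hb1 hb2 hbz) hn
        · obtain ⟨σ, h1, h2, h3, h4⟩ := reach1 hpq (sg x p) (sg x q) (sg x) hz (sg x p)
          refine ⟨σ, ?_⟩
          rw [aQ σ (h1.trans h4.symm) (by rw [h2, h4]; exact Ne.symm hs)]
          refine hQG x hx σ (rt_of h1 hp) (rt_of h2 hq) fun b hb1 hb2 hn => ?_
          by_cases hbz : b = z
          · rw [hbz]
            exact hz2
          · exact zero_of_nrt (h3 b hb1 hb2 hbz) hn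
      · push Not at hz
        refine ⟨sg x, good_full (fun i => ?_) fun i => ?_⟩
        · simp only [ha]
          split_ifs
          · exact hOp i
          · exact hQ i
          · exact hOq i
          · exact hP i
        · refine rt_of rfl ?_
          by_cases h1 : i = p
          · rw [h1]
            exact hp
          · by_cases h2 : i = q
            · rw [h2]
              exact hq
            · exact hz i ⟨h1, h2⟩

end Pool.Agent.Zk99.HC
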