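import Mathlib
import Pool.Agent.Zk99.HC.Schemes

/-!
# The third scheme
-/

set_option autoImplicit false

namespace Pool.Agent.Zk99.HC

open Finset Filter Topology
open Pool.Agent.N148.HD (Unc unc_le sol_of_unc)

variable {ι : Type} [Fintype ι] [DecidableEq ι]

lemma par_neg {p q : ι} (r : ι → ℤˣ) {z : ι} (hz : z ≠ p ∧ z ≠ q) (s : ℤˣ) :
    par p q (Function.update r z (-s)) = -par p q (Function.update r z s) := by
  unfold par
  rw [← Finset.mul_prod_erase _ _ (mem_bs.2 hz), ← Finset.mul_prod_erase _ _ (mem_bs.2 hz),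
    Function.update_self, Function.update_self, neg_mul]
  congr 2
  refine Finset.prod_congr rfl fun b hb => ?_
  rw [Function.update_of_ne (Finset.ne_of_mem_erase hb),
    Function.update_of_ne (Finset.ne_of_mem_erase hb)]

lemma reach1' {p q : ι} (hpq : p ≠ q) (sp : ℤˣ) (r : ι → ℤˣ) {z : ι} (hz : z ≠ p ∧ z ≠ q)
    (ε : ℤˣ) {b₁ : ι} (hb₁ : b₁ ≠ p ∧ b₁ ≠ q) :
    ∃ σ : ι → ℤˣ, σ p = sp ∧ σ q = σ b₁ ∧ (∀ b, b ≠ p → b ≠ q → b ≠ z → σ b = r b) ∧
      par p q σ = ε := by
  obtain ⟨τ, h1, _, h3, h4⟩ := reach1 hpq sp 1 r hz ε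
  obtain ⟨σ, h5, h6, h7⟩ := reach0 hpq (τ p) (τ b₁) τ
  refine ⟨σ, h5.trans h1, ?_, ?_, ?_⟩
  · rw [h6, h7 b₁ hb₁.1 hb₁.2]
  · intro b k1 k2 k3
    rw [h7 b k1 k2, h3 b k1 k2 k3]
  · rw [par_congr h7, h4]

open Classical in
/-- **Option III.** -/
theorem optIII {K : Set (ι → ℝ)} {p q : ι} (h : Nrm K p q) (hs : Sq K p q) {η : ℝ} (hη0 : 0 < η)
    (hη1 : η ≤ 1 / 8) {b₁ b₂ : ι} (hb₁ : b₁ ≠ p ∧ b₁ ≠ q) (hb₂ : b₂ ≠ p ∧ b₂ ≠ q) (h12 : b₂ ≠ b₁)
    (hx1 : ∀ x ∈ K, 1 / 2 < |x b₁| → |x q| < 1 - η)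
    (hx2 : ∀ x ∈ K, 1 / 2 < |x b₂| → |x q| < 1 - η ∨ |x p| < 1 - η) :
    ∃ T : Finset (ι → ℝ), T.card ≤ 2 ^ Fintype.card ι ∧
      K ⊆ ⋃ t ∈ T, (fun x => t + x) '' interior K := by
  have hpq := h.pq
  have hη2 : 0 < 1 - η := by linarith
  set PQ : ι → ℝ := tk p q p 8 8 1 with hPQdef
  set P : ι → ℝ := tk p q p 8 (1 - η) 1 with hPdef
  set Q : ι → ℝ := tk p q p (1 - η) 8 1 with hQdef
  set O : ι → ℝ := tk p q p (1 / 4) (1 - η) 1 with hOdef
  have hPq : P q = 1 - η := tk_q hpq
  have hQp : Q p = 1 - η := tk_p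
  have hOp : O p = 1 / 4 := tk_p
  have hOq : O q = 1 - η := tk_q hpq
  have hPQ0 : ∀ i, 0 < PQ i := tk_pos (by norm_num) (by norm_num) one_pos
  have hP0 : ∀ i, 0 < P i := tk_pos (by norm_num) hη2 one_pos
  have hQ0 : ∀ i, 0 < Q i := tk_pos hη2 (by norm_num) one_pos
  have hO0 : ∀ i, 0 < O i := tk_pos (by norm_num) hη2 one_pos
  set a : (ι → ℤˣ) → ι → ℝ := fun σ =>
    if σ p = par p q σ then (if σ q = σ b₁ then O else Q)
    else (if σ q = σ b₁ then P else PQ) with ha
  have ha0 : ∀ σ i, 0 < a σ i := by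
    intro σ i
    simp only [ha]
    split_ifs
    · exact hO0 i
    · exact hQ0 i
    · exact hP0 i
    · exact hPQ0 i
  refine cover_of_good h.cvx h.cmp h.int h.unc a ha0 fun x hx => ?_
  have aO : ∀ σ, σ p = par p q σ → σ q = σ b₁ → a σ = O := by
    intro σ h1 h2
    simp only [ha]
    rw [if_pos h1, if_pos h2]
  have aQ : ∀ σ, σ p = par p q σ → σ q ≠ σ b₁ → a σ = Q := by
    intro σ h1 h2
    simp only [ha]
    rw [if_pos h1, if_neg h2]
  have aP : ∀ σ, σ p ≠ par p q σ → σ q = σ b₁ → a σ = P := by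
    intro σ h1 h2
    simp only [ha]
    rw [if_neg h1, if_pos h2]
  have aPQ : ∀ σ, σ p ≠ par p q σ → σ q ≠ σ b₁ → a σ = PQ := by
    intro σ h1 h2
    simp only [ha]
    rw [if_neg h1, if_neg h2]
  have hz0 : (0 : ℝ) ≤ 1 / 2 := by norm_num
  -- goodness of the tokens
  have gPQ : ∀ σ, Rt σ x p → Rt σ x q →
      (∀ b, b ≠ p → b ≠ q → ¬ Rt σ x b → |x b| ≤ 1 / 2) → Good K x σ PQ :=
    fun σ h1 h2 h3 => good_PQ h hx h1 h2 h3 (fun b k1 k2 => tk_1 k1 k2) tk_p (tk_q hpq)
  have gP0 : ∀ σ, Rt σ x p → x q = 0 →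
      (∀ b, b ≠ p → b ≠ q → ¬ Rt σ x b → |x b| ≤ 1 / 2) → Good K x σ P :=
    fun σ h1 h2 h3 => good_P0 h hx h1 h2 h3 (fun b k1 k2 => tk_1 k1 k2) tk_p
      (by rw [hPq]; exact hη2) (by rw [hPq]; linarith)
  have gQ0 : ∀ σ, Rt σ x q → x p = 0 →
      (∀ b, b ≠ p → b ≠ q → ¬ Rt σ x b → |x b| ≤ 1 / 2) → Good K x σ Q :=
    fun σ h1 h2 h3 => good_P0 h.symm hx h1 h2 (fun b k1 k2 => h3 b k2 k1)
      (fun b k1 k2 => tk_1 k2 k1) (tk_q hpq)
      (by rw [hQp]; exact hη2) (by rw [hQp]; linarith)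
  have gP2 : ∀ σ, Rt σ x p → Rt σ x q → (∀ b, b ≠ p → b ≠ q → ¬ Rt σ x b → x b = 0) →
      |x q| < 1 - η → Good K x σ P :=
    fun σ h1 h2 h3 h4 => good_P2 h hx h1 h2 h3 (fun b k1 k2 => tk_1 k1 k2) tk_p
      (by rw [hPq]; exact h4)
  have gQ2 : ∀ σ, Rt σ x p → Rt σ x q → (∀ b, b ≠ p → b ≠ q → ¬ Rt σ x b → x b = 0) →
      |x p| < 1 - η → Good K x σ Q :=
    fun σ h1 h2 h3 h4 => good_P2 h.symm hx h2 h1 (fun b k1 k2 => h3 b k2 k1)
      (fun b k1 k2 => tk_1 k2 k1) (tk_q hpq) (by rw [hQp]; exact h4)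
  have hle_of_zero : ∀ b, x b = 0 → |x b| ≤ 1 / 2 := by
    intro b hb
    rw [hb, abs_zero]
    exact hz0
  by_cases hp : x p = 0
  · by_cases hq : x q = 0
    · -- both zero
      obtain ⟨σ, h1, h2, h3⟩ := reach0 hpq (par p q (sg x)) (sg x b₁) (sg x)
      have h4 := par_congr h3
      refine ⟨σ, ?_⟩
      rw [aO σ (h1.trans h4.symm) (h2.trans (h3 b₁ hb₁.1 hb₁.2).symm)]
      exact good_O0' h hs hx hp hq (fun b hb1 hb2 hn => zero_of_nrt (h3 b hb1 hb2) hn)
        (fun b k1 k2 => tk_1 k1 k2) (α := 1 - η) (by linarith) (by rw [hOp]; linarith)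
        hOq.le (hO0 p)
    · -- `x p = 0`, `x q ≠ 0`
      by_cases hb : |x b₁| ≤ 1 / 2
      · set r := Function.update (sg x) b₁ (-sg x q) with hr
        obtain ⟨σ, h1, h2, h3⟩ := reach0 hpq (par p q r) (sg x q) r
        have h4 := par_congr h3
        have h5 : σ b₁ = -sg x q := by
          rw [h3 b₁ hb₁.1 hb₁.2, hr, Function.update_self]
        refine ⟨σ, ?_⟩
        rw [aQ σ (h1.trans h4.symm) (by rw [h2, h5]; exact units_neg_ne _)]
        refine gQ0 σ (rt_of h2 hq) hp fun b hb1 hb2 hn => ?_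
        by_cases hbz : b = b₁
        · rw [hbz]
          exact hb
        · refine hle_of_zero b (zero_of_nrt ?_ hn)
          rw [h3 b hb1 hb2, hr, Function.update_of_ne hbz]
      · push Not at hb
        have hxq := hx1 x hx hb
        by_cases hsg : sg x q = sg x b₁
        · obtain ⟨σ, h1, h2, h3⟩ := reach0 hpq (par p q (sg x)) (sg x q) (sg x)
          have h4 := par_congr h3
          refine ⟨σ, ?_⟩
          rw [aO σ (h1.trans h4.symm) (by rw [h2, h3 b₁ hb₁.1 hb₁.2]; exact hsg)]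
          exact good_O3 h hs hx (rt_of h2 hq) hp
            (fun b hb1 hb2 hn => zero_of_nrt (h3 b hb1 hb2) hn)
            (fun b k1 k2 => tk_1 k1 k2) tk_p (by rw [hOq]; exact hxq)
        · obtain ⟨σ, h1, h2, h3⟩ := reach0 hpq (par p q (sg x)) (sg x q) (sg x)
          have h4 := par_congr h3
          refine ⟨σ, ?_⟩
          rw [aQ σ (h1.trans h4.symm) (by rw [h2, h3 b₁ hb₁.1 hb₁.2]; exact hsg)]
          exact gQ0 σ (rt_of h2 hq) hp fun b hb1 hb2 hn =>
            hle_of_zero b (zero_of_nrt (h3 b hb1 hb2) hn)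
  · by_cases hq : x q = 0
    · -- `x p ≠ 0`, `x q = 0`
      by_cases hz : ∃ z, (z ≠ p ∧ z ≠ q) ∧ |x z| ≤ 1 / 2
      · obtain ⟨z, hz, hz2⟩ := hz
        obtain ⟨σ, h1, h2, h3, h4⟩ := reach1' hpq (sg x p) (sg x) hz (-sg x p) hb₁
        refine ⟨σ, ?_⟩
        rw [aP σ (by rw [h1, h4]; exact units_neg_ne _) h2]
        refine gP0 σ (rt_of h1 hp) hq fun b hb1 hb2 hn => ?_
        by_cases hbz : b = z
        · rw [hbz]
          exact hz2
        · exact hle_of_zero b (zero_of_nrt (h3 b hb1 hb2 hbz) hn)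
      · push Not at hz
        have hne : ∀ b, b ≠ p → b ≠ q → x b ≠ 0 := by
          intro b hb1 hb2 h0
          have := hz b ⟨hb1, hb2⟩
          rw [h0, abs_zero] at this
          linarith
        by_cases hsg : sg x p = par p q (sg x)
        · obtain ⟨σ, h1, h2, h3⟩ := reach0 hpq (sg x p) (sg x b₁) (sg x)
          have h4 := par_congr h3
          refine ⟨σ, ?_⟩
          rw [aO σ (h1.trans (hsg.trans h4.symm)) (by rw [h2, h3 b₁ hb₁.1 hb₁.2])]
          exact good_O1c h hs hx (rt_of h1 hp) hq (fun b hb1 hb2 =>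
            rt_of (h3 b hb1 hb2) (hne b hb1 hb2)) (fun b k1 k2 => tk_1 k1 k2) (hO0 q) (hO0 p)
            (by rw [hOq]; linarith)
        · obtain ⟨σ, h1, h2, h3⟩ := reach0 hpq (sg x p) (sg x b₁) (sg x)
          have h4 := par_congr h3
          refine ⟨σ, ?_⟩
          rw [aP σ (by rw [h1, h4]; exact hsg) (by rw [h2, h3 b₁ hb₁.1 hb₁.2])]
          exact gP0 σ (rt_of h1 hp) hq fun b hb1 hb2 hn =>
            hle_of_zero b (zero_of_nrt (h3 b hb1 hb2) hn)
    · -- both nonzero
      by_cases hz : ∃ z, (z ≠ p ∧ z ≠ q) ∧ x z = 0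
      · obtain ⟨z, hz, hz2⟩ := hz
        by_cases hb : |x b₁| ≤ 1 / 2
        · by_cases hy : ∃ y, (y ≠ p ∧ y ≠ q) ∧ y ≠ b₁ ∧ |x y| ≤ 1 / 2
          · obtain ⟨y, hy, hyb, hy2⟩ := hy
            set r := Function.update (sg x) b₁ (-sg x q) with hr
            obtain ⟨σ, h1, h2, h3, h4⟩ := reach1 hpq (sg x p) (sg x q) r hy (-sg x p)
            have h5 : σ b₁ = -sg x q := by
              rw [h3 b₁ hb₁.1 hb₁.2 hyb.symm, hr, Function.update_self]
            refine ⟨σ, ?_⟩
            rw [aPQ σ (by rw [h1, h4]; exact units_neg_ne _)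
              (by rw [h2, h5]; exact units_neg_ne _)]
            refine gPQ σ (rt_of h1 hp) (rt_of h2 hq) fun b hb1 hb2 hn => ?_
            by_cases hbb : b = b₁
            · rw [hbb]
              exact hb
            by_cases hby : b = y
            · rw [hby]
              exact hy2
            refine hle_of_zero b (zero_of_nrt ?_ hn)
            rw [h3 b hb1 hb2 hby, hr, Function.update_of_ne hbb]
          · push Not at hy
            have hzb : z = b₁ := by
              by_contra hzb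
              have := hy z hz hzb
              rw [hz2, abs_zero] at this
              linarith
            have hxb : x b₁ = 0 := by
              rw [← hzb]
              exact hz2
            have hxb2 := hx2 x hx (hy b₂ hb₂ h12)
            set r := Function.update (sg x) b₁ (-sg x q) with hr
            set r' := Function.update (sg x) b₁ (sg x q) with hr'
            have hrr : par p q r = -par p q r' := par_neg (sg x) hb₁ (sg x q)
            have hB : ∀ (s : ℤˣ) (σ : ι → ℤˣ),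
                (∀ b, b ≠ p → b ≠ q → σ b = Function.update (sg x) b₁ s b) →
                ∀ b, b ≠ p → b ≠ q → ¬ Rt σ x b → x b = 0 := by
              intro s σ hσ b k1 k2 k3
              by_cases hbb : b = b₁
              · rw [hbb]
                exact hxb
              · refine zero_of_nrt ?_ k3
                rw [hσ b k1 k2, Function.update_of_ne hbb]
            by_cases hpar : sg x p = par p q r
            · rcases hxb2 with hlt | hlt
              · -- the token `P` with `r'`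
                obtain ⟨σ, h1, h2, h3⟩ := reach0 hpq (sg x p) (sg x q) r'
                have h4 := par_congr h3
                refine ⟨σ, ?_⟩
                rw [aP σ ?_ ?_]
                · exact gP2 σ (rt_of h1 hp) (rt_of h2 hq) (hB _ σ h3) hlt
                · rw [h1, h4, hpar, hrr]
                  exact (units_neg_ne _).symm
                · rw [h2, h3 b₁ hb₁.1 hb₁.2, hr', Function.update_self]
              · -- the token `Q` with `r`
                obtain ⟨σ, h1, h2, h3⟩ := reach0 hpq (sg x p) (sg x q) r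
                have h4 := par_congr h3
                refine ⟨σ, ?_⟩
                rw [aQ σ ?_ ?_]
                · exact gQ2 σ (rt_of h1 hp) (rt_of h2 hq) (hB _ σ h3) hlt
                · rw [h1, h4, hpar]
                · rw [h2, h3 b₁ hb₁.1 hb₁.2, hr, Function.update_self]
                  exact units_neg_ne _
            · obtain ⟨σ, h1, h2, h3⟩ := reach0 hpq (sg x p) (sg x q) r
              have h4 := par_congr h3
              refine ⟨σ, ?_⟩
              rw [aPQ σ ?_ ?_]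
              · exact gPQ σ (rt_of h1 hp) (rt_of h2 hq) fun b k1 k2 k3 =>
                  hle_of_zero b (hB _ σ h3 b k1 k2 k3)
              · rw [h1, h4]
                exact hpar
              · rw [h2, h3 b₁ hb₁.1 hb₁.2, hr, Function.update_self]
                exact units_neg_ne _
        · push Not at hb
          have hxq := hx1 x hx hb
          have hzb : b₁ ≠ z := by
            rintro rfl
            rw [hz2, abs_zero] at hb
            linarith
          obtain ⟨σ, h1, h2, h3, h4⟩ := reach1 hpq (sg x p) (sg x q) (sg x) hz (-sg x p)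
          have hB : ∀ b, b ≠ p → b ≠ q → ¬ Rt σ x b → x b = 0 := by
            intro b hb1 hb2 hn
            by_cases hbz : b = z
            · rw [hbz]
              exact hz2
            · exact zero_of_nrt (h3 b hb1 hb2 hbz) hn
          refine ⟨σ, ?_⟩
          by_cases hsg : sg x q = sg x b₁
          · rw [aP σ (by rw [h1, h4]; exact units_neg_ne _)
              (by rw [h2, h3 b₁ hb₁.1 hb₁.2 hzb]; exact hsg)]
            exact gP2 σ (rt_of h1 hp) (rt_of h2 hq) hB hxq
          · rw [aPQ σ (by rw [h1, h4]; exact units_neg_ne _)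
              (by rw [h2, h3 b₁ hb₁.1 hb₁.2 hzb]; exact hsg)]
            exact gPQ σ (rt_of h1 hp) (rt_of h2 hq) fun b k1 k2 k3 =>
              hle_of_zero b (hB b k1 k2 k3)
      · push Not at hz
        refine ⟨sg x, good_full (ha0 _) fun i => ?_⟩
        refine rt_of rfl ?_
        by_cases h1 : i = p
        · rw [h1]
          exact hp
        · by_cases h2 : i = q
          · rw [h2]
            exact hq
          · exact hz i ⟨h1, h2⟩

end Pool.Agent.Zk99.HC
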