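import Mathlib
import Pool.Agent.Zk99.HC.Scheme3
import Pool.Agent.Zk99.HB.Eucl

/-!
# Unconditional bodies with a box as section of codimension two
-/

set_option autoImplicit false

namespace Pool.Agent.Zk99.HC

open Finset Filter Topology
open Pool.Agent.N148.HD (Unc unc_le sol_of_unc)

variable {ι : Type} [Fintype ι] [DecidableEq ι]

/-- the conclusion -/
def Cov (K : Set (ι → ℝ)) : Prop := ∃ T : Finset (ι → ℝ), T.card ≤ 2 ^ Fintype.card ι ∧
  K ⊆ ⋃ t ∈ T, (fun x => t + x) '' interior K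

lemma GG.swap {K : Set (ι → ℝ)} {p q : ι} {a x : ι → ℝ} (h : GG K q p a x) : GG K p q a x :=
  fun σ h1 h2 h3 => h σ h2 h1 fun b k1 k2 => h3 b k2 k1

/-- a point `x` for which a coordinate in the support of `l` is large -/
lemma uu_lt {K : Set (ι → ℝ)} {p q : ι} {l : ι → ℝ} (hl : UU K p q l) {b : ι}
    (hb : b ≠ p ∧ b ≠ q) (hlb : 0 < l b) {η : ℝ} (hη : η ≤ l b / 2) {x : ι → ℝ} (hx : x ∈ K)
    (hxb : 1 / 2 < |x b|) : |x q| < 1 - η := by
  have h1 := hl.2.2 x hx
  have h2 : l b * |x b| ≤ ∑ b ∈ bs p q, l b * |x b| :=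
    Finset.single_le_sum (f := fun b => l b * |x b|)
      (fun b _ => mul_nonneg (hl.1 b) (abs_nonneg _)) (mem_bs.2 hb)
  have h3 : l b * (1 / 2) < l b * |x b| := mul_lt_mul_of_pos_left hxb hlb
  linarith

section cases

variable {K : Set (ι → ℝ)} {p q : ι}

/-- the token `P` -/
lemma gen_P0 (h : Nrm K p q) {η : ℝ} (hη0 : 0 < η) (hη1 : η ≤ 1 / 8) :
    ∀ x ∈ K, ∀ σ, Rt σ x p → x q = 0 → (∀ b, b ≠ p → b ≠ q → ¬ Rt σ x b → |x b| ≤ 1 / 2) →
      Good K x σ (tk p q p 8 (1 - η) 1) := by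
  intro x hx σ h1 h2 h3
  refine good_P0 h hx h1 h2 h3 (fun b k1 k2 => tk_1 k1 k2) tk_p ?_ ?_
  · rw [tk_q h.pq]
    linarith
  · rw [tk_q h.pq]
    linarith

/-- the token `Q` -/
lemma gen_Q0 (h : Nrm K p q) {η : ℝ} (hη0 : 0 < η) (hη1 : η ≤ 1 / 8) :
    ∀ x ∈ K, ∀ σ, Rt σ x q → x p = 0 → (∀ b, b ≠ p → b ≠ q → ¬ Rt σ x b → |x b| ≤ 1 / 2) →
      Good K x σ (tk p q p (1 - η) 8 1) := by
  intro x hx σ h1 h2 h3
  refine good_P0 h.symm hx h1 h2 (fun b k1 k2 => h3 b k2 k1) (fun b k1 k2 => tk_1 k2 k1)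
    (tk_q h.pq) ?_ ?_
  · rw [tk_p]
    linarith
  · rw [tk_p]
    linarith

lemma gen_O0 (h : Nrm K p q) {u v : ℝ} (hu : 0 < u) (hv : 0 < v) (huv : u + v < 1) :
    ∀ x ∈ K, ∀ σ, x p = 0 → x q = 0 → (∀ b, b ≠ p → b ≠ q → ¬ Rt σ x b → x b = 0) →
      Good K x σ (tk p q p u v 1) := by
  intro x hx σ h1 h2 h3
  refine good_O0 h hx h1 h2 h3 (fun b k1 k2 => tk_1 k1 k2) ?_ ?_ ?_
  · rw [tk_p]
    exact hu
  · rw [tk_q h.pq]
    exact hv
  · rw [tk_p, tk_q h.pq]
    exact huv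

lemma gen_O1 (h : Nrm K p q) (hy : ∃ y ∈ K, 1 < |y p| + |y q|) :
    ∀ x ∈ K, ∀ σ, Rt σ x p → x q = 0 → (∀ b, b ≠ p → b ≠ q → Rt σ x b) →
      Good K x σ (tk p q p (1 / 4) (1 / 4) 1) := by
  intro x hx σ h1 h2 h3
  exact good_O1a h hx h1 h2 h3 (fun b k1 k2 => tk_1 k1 k2) tk_p (tk_q h.pq) hy

lemma gen_O2 (h : Nrm K p q) (hy : ∃ y ∈ K, 1 < |y p| + |y q|) :
    ∀ x ∈ K, ∀ σ, Rt σ x q → x p = 0 → (∀ b, b ≠ p → b ≠ q → Rt σ x b) →
      (∀ b, b ≠ p → b ≠ q → 1 / 2 < |x b|) → Good K x σ (tk p q p (1 / 4) (1 / 4) 1) := by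
  intro x hx σ h1 h2 h3 _
  obtain ⟨y, hy, hy1⟩ := hy
  exact good_O1a h.symm hx h1 h2 (fun b k1 k2 => h3 b k2 k1) (fun b k1 k2 => tk_1 k2 k1)
    (tk_q h.pq) tk_p ⟨y, hy, by linarith⟩

lemma pos_tk {u v : ℝ} (hu : 0 < u) (hv : 0 < v) (i : ι) : 0 < tk p q p u v 1 i :=
  tk_pos hu hv one_pos i

/-- Case 2a: the section with the coordinates `p`, `q` is not a diamond and one of the tokens is
always good. -/
lemma case_a (h : Nrm K p q) (hy : ∃ y ∈ K, 1 < |y p| + |y q|) {η : ℝ} (hη0 : 0 < η)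
    (hη1 : η ≤ 1 / 8)
    (hPQ : ∀ x ∈ K, x p ≠ 0 → x q ≠ 0 →
      GG K p q (tk p q p 8 (1 - η) 1) x ∨ GG K p q (tk p q p (1 - η) 8 1) x) : Cov K :=
  optI h (P := tk p q p 8 (1 - η) 1) (Q := tk p q p (1 - η) 8 1)
    (O := tk p q p (1 / 4) (1 / 4) 1)
    (pos_tk (by norm_num) (by linarith)) (pos_tk (by linarith) (by norm_num))
    (pos_tk (by norm_num) (by norm_num)) (gen_P0 h hη0 hη1) (gen_Q0 h hη0 hη1) hPQ
    (gen_O0 h (by norm_num) (by norm_num) (by norm_num)) (gen_O1 h hy) (gen_O2 h hy)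

/-- `P` or `Q` is good if not both coordinates are large -/
lemma gen_PQ (h : Nrm K p q) {η : ℝ} {x : ι → ℝ} (hx : x ∈ K)
    (hor : |x q| < 1 - η ∨ |x p| < 1 - η) :
    GG K p q (tk p q p 8 (1 - η) 1) x ∨ GG K p q (tk p q p (1 - η) 8 1) x := by
  rcases hor with hlt | hlt
  · left
    intro σ h1 h2 h3
    refine good_P2 h hx h1 h2 h3 (fun b k1 k2 => tk_1 k1 k2) tk_p ?_
    rw [tk_q h.pq]
    exact hlt
  · right
    intro σ h1 h2 h3
    refine good_P2 h.symm hx h2 h1 (fun b k1 k2 => h3 b k2 k1) (fun b k1 k2 => tk_1 k2 k1)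
      (tk_q h.pq) ?_
    rw [tk_p]
    exact hlt

/-- if the section is not a square then not both coordinates are large -/
lemma exists_gap (h : Nrm K p q) (hs : ¬ Sq K p q) :
    ∃ η : ℝ, 0 < η ∧ η ≤ 1 / 8 ∧ ∀ x ∈ K, |x q| < 1 - η ∨ |x p| < 1 - η := by
  have hcl : IsClosed K := h.cmp.isClosed
  set f : ℝ → (ι → ℝ) := fun t i => if i = p ∨ i = q then 1 - t else 0 with hf
  have hfc : Continuous f := by
    refine continuous_pi fun i => ?_
    simp only [hf]
    by_cases hi : i = p ∨ i = q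
    · simp only [if_pos hi]
      exact continuous_const.sub continuous_id
    · simp only [if_neg hi]
      exact continuous_const
  have h0 : f 0 ∈ Kᶜ := by
    have : f 0 = fun i => if i = p ∨ i = q then (1 : ℝ) else 0 := by
      simp only [hf, sub_zero]
    rw [this]
    exact hs
  have hnhds : ∀ᶠ t in 𝓝 (0 : ℝ), f t ∈ Kᶜ :=
    hfc.continuousAt.eventually_mem (hcl.isOpen_compl.mem_nhds h0)
  obtain ⟨ε, hε, hε2⟩ := Metric.eventually_nhds_iff.1 hnhds
  refine ⟨min (ε / 2) (1 / 8), lt_min (by linarith) (by norm_num), min_le_right _ _,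
    fun x hx => ?_⟩
  set η := min (ε / 2) (1 / 8) with hη
  have hη0 : 0 < η := lt_min (by linarith) (by norm_num)
  by_contra hcon
  push Not at hcon
  have h1 : f η ∈ Kᶜ := by
    refine hε2 ?_
    rw [Real.dist_eq, sub_zero, abs_of_pos hη0]
    exact (min_le_left _ _).trans_lt (by linarith)
  refine h1 (unc_le h.cvx h.unc x hx _ fun i => ?_)
  have hη8 : η ≤ 1 / 8 := min_le_right _ _
  simp only [hf]
  split_ifs with hi
  · rw [abs_of_nonneg (by linarith)]
    rcases hi with rfl | rfl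
    · exact hcon.2
    · exact hcon.1
  · rw [abs_zero]
    exact abs_nonneg _

/-- Case 1b: the section is a diamond, and there is an `l` -/
lemma case_b (h : Nrm K p q) (hs : ¬ Sq K p q) {l : ι → ℝ} (hl : UU K p q l) : Cov K := by
  obtain ⟨η, hη0, hη1, hη⟩ := exists_gap h hs
  refine optI h (P := tk p q p 8 (1 - η) 1) (Q := tk p q p (1 - η) 8 1)
    (O := tk p q p (5 / 16) (1 / 4) 1)
    (pos_tk (by norm_num) (by linarith)) (pos_tk (by linarith) (by norm_num))
    (pos_tk (by norm_num) (by norm_num)) (gen_P0 h hη0 hη1) (gen_Q0 h hη0 hη1)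
    (fun x hx _ _ => gen_PQ h hx (hη x hx))
    (gen_O0 h (by norm_num) (by norm_num) (by norm_num)) ?_ ?_
  · intro x hx σ h1 h2 h3
    refine good_O1b h hx h1 h2 h3 (fun b k1 k2 => tk_1 k1 k2) ?_ ?_ ?_
    · rw [tk_q h.pq]
      norm_num
    · rw [tk_q h.pq, tk_p]
      norm_num
    · rw [tk_q h.pq]
      norm_num
  · intro x hx σ h1 h2 h3 h4
    refine good_O2b h hx h1 h2 ?_ h3 (fun b k1 k2 => tk_1 k1 k2) tk_p (tk_q h.pq)
    have h5 := hl.2.2 x hx
    have h6 : ∑ b ∈ bs p q, l b * (1 / 2) ≤ ∑ b ∈ bs p q, l b * |x b| :=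
      Finset.sum_le_sum fun b hb =>
        mul_le_mul_of_nonneg_left (h4 b (mem_bs.1 hb).1 (mem_bs.1 hb).2).le (hl.1 b)
    rw [← Finset.sum_mul, hl.2.1] at h6
    linarith

/-- Case 1c: no `l` exist -/
lemma case_c (h : Nrm K p q) (h1 : ∀ l, ¬ UU K p q l) (h2 : ∀ l, ¬ UU K q p l) : Cov K := by
  obtain ⟨η₁, k1, k2, k3⟩ := good_of_no h h1
  obtain ⟨η₂, k4, k5, k6⟩ := good_of_no h.symm h2
  set η := min η₁ η₂ with hη
  have hη0 : 0 < η := lt_min k1 k4
  have hη1 : η ≤ 1 / 8 := (min_le_left _ _).trans k2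
  refine optII h (P := tk p q p 8 (1 - η) 1) (Q := tk p q p (1 - η) 8 1)
    (Op := tk p q p (5 / 16) (1 / 4) 1) (Oq := tk p q p (1 / 4) (5 / 16) 1)
    (pos_tk (by norm_num) (by linarith)) (pos_tk (by linarith) (by norm_num))
    (pos_tk (by norm_num) (by norm_num)) (pos_tk (by norm_num) (by norm_num))
    (gen_P0 h hη0 hη1) (gen_Q0 h hη0 hη1)
    (k3 η hη0 (min_le_left _ _) _ (fun b k1 k2 => tk_1 k1 k2) tk_p (tk_q h.pq))
    (fun x hx => (k6 η hη0 (min_le_right _ _) _ (fun b k1 k2 => tk_1 k2 k1) (tk_q h.pq) tk_p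
      x hx).swap)
    (gen_O0 h (by norm_num) (by norm_num) (by norm_num)) ?_ ?_
  · intro x hx σ h1 h2 h3
    refine good_O1b h hx h1 h2 h3 (fun b k1 k2 => tk_1 k1 k2) ?_ ?_ ?_
    · rw [tk_q h.pq]
      norm_num
    · rw [tk_q h.pq, tk_p]
      norm_num
    · rw [tk_q h.pq]
      norm_num
  · intro x hx σ h1 h2 h3
    refine good_O1b h.symm hx h1 h2 (fun b k1 k2 => h3 b k2 k1) (fun b k1 k2 => tk_1 k2 k1)
      ?_ ?_ ?_
    · rw [tk_p]
      norm_num
    · rw [tk_q h.pq, tk_p]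
      norm_num
    · rw [tk_p]
      norm_num

/-- Case 2: the section with the coordinates `p`, `q` is a square -/
lemma case_sq (h : Nrm K p q) (hs : Sq K p q) : Cov K := by
  have hy : ∃ y ∈ K, 1 < |y p| + |y q| := by
    refine ⟨_, hs, ?_⟩
    rw [if_pos (Or.inl rfl), if_pos (Or.inr rfl), abs_one]
    norm_num
  by_cases hkey : ∃ (l m : ι → ℝ) (b₁ b₂ : ι), UU K p q l ∧ UU K q p m ∧ (b₁ ≠ p ∧ b₁ ≠ q) ∧
      (b₂ ≠ p ∧ b₂ ≠ q) ∧ b₂ ≠ b₁ ∧ 0 < l b₁ ∧ (0 < l b₂ ∨ 0 < m b₂)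
  · obtain ⟨l, m, b₁, b₂, hl, hm, hb₁, hb₂, h12, hl1, h2⟩ := hkey
    rcases h2 with h2 | h2
    · set η := min (1 / 8) (min (l b₁ / 2) (l b₂ / 2)) with hη
      have k0 : 0 < η := lt_min (by norm_num) (lt_min (by linarith) (by linarith))
      have k1 : η ≤ l b₁ / 2 := (min_le_right _ _).trans (min_le_left _ _)
      have k2 : η ≤ l b₂ / 2 := (min_le_right _ _).trans (min_le_right _ _)
      exact optIII h hs k0 (min_le_left _ _) hb₁ hb₂ h12
        (fun x hx hxb => uu_lt hl hb₁ hl1 k1 hx hxb)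
        (fun x hx hxb => Or.inl (uu_lt hl hb₂ h2 k2 hx hxb))
    · set η := min (1 / 8) (min (l b₁ / 2) (m b₂ / 2)) with hη
      have k0 : 0 < η := lt_min (by norm_num) (lt_min (by linarith) (by linarith))
      have k1 : η ≤ l b₁ / 2 := (min_le_right _ _).trans (min_le_left _ _)
      have k2 : η ≤ m b₂ / 2 := (min_le_right _ _).trans (min_le_right _ _)
      exact optIII h hs k0 (min_le_left _ _) hb₁ hb₂ h12
        (fun x hx hxb => uu_lt hl hb₁ hl1 k1 hx hxb)
        (fun x hx hxb => Or.inr (uu_lt hm ⟨hb₂.2, hb₂.1⟩ h2 k2 hx hxb))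
  · push Not at hkey
    by_cases hUq : ∃ l, UU K p q l
    · by_cases hUp : ∃ m, UU K q p m
      · obtain ⟨l, hl⟩ := hUq
        obtain ⟨m, hm⟩ := hUp
        -- both sets consist of one unit vector
        obtain ⟨b₀, hb₀, hlb₀⟩ : ∃ b ∈ bs p q, 0 < l b := by
          by_contra hcon
          push Not at hcon
          have := Finset.sum_nonpos hcon
          rw [hl.2.1] at this
          linarith
        rw [mem_bs] at hb₀
        have hm0 : ∀ b, b ≠ p → b ≠ q → b ≠ b₀ → m b = 0 := fun b k1 k2 k3 =>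
          le_antisymm (hkey l m b₀ b hl hm hb₀ ⟨k1, k2⟩ k3 hlb₀).2 (hm.1 b)
        have hmb₀ : m b₀ = 1 := by
          have h1 := hm.2.1
          rw [Finset.sum_eq_single b₀] at h1
          · exact h1
          · intro b hb hbb
            rw [mem_bs] at hb
            exact hm0 b hb.2 hb.1 hbb
          · intro hb
            exact absurd (mem_bs.2 ⟨hb₀.2, hb₀.1⟩) hb
        have honly : ∀ l', UU K p q l' → 1 / 2 < l' b₀ := by
          intro l' hl'
          have h1 := hl'.2.1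
          rw [Finset.sum_eq_single b₀] at h1
          · rw [h1]
            norm_num
          · intro b hb hbb
            rw [mem_bs] at hb
            by_contra hne
            have hpos : 0 < l' b := lt_of_le_of_ne (hl'.1 b) (Ne.symm hne)
            have := (hkey l' m b b₀ hl' hm hb hb₀ (Ne.symm hbb) hpos).2
            rw [hmb₀] at this
            linarith
          · intro hb
            exact absurd (mem_bs.2 hb₀) hb
        have hxb₀ : ∀ x ∈ K, |x b₀| + |x p| ≤ 1 := by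
          intro x hx
          have h1 := hm.2.2 x hx
          have h2 : m b₀ * |x b₀| ≤ ∑ b ∈ bs q p, m b * |x b| :=
            Finset.single_le_sum (f := fun b => m b * |x b|)
              (fun b _ => mul_nonneg (hm.1 b) (abs_nonneg _)) (mem_bs.2 ⟨hb₀.2, hb₀.1⟩)
          rw [hmb₀, one_mul] at h2
          linarith
        obtain ⟨η, hη0, hη1, hη⟩ := good_of_only h hb₀ honly
        refine optI h (P := tk p q b₀ 8 (1 - η) (1 - 2 * η)) (Q := tk p q p (1 - η) 8 1)
          (O := tk p q p (1 / 4) (1 / 4) 1)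
          (tk_pos (by norm_num) (by linarith) (by linarith))
          (pos_tk (by linarith) (by norm_num))
          (pos_tk (by norm_num) (by norm_num)) ?_ (gen_Q0 h hη0 hη1) ?_
          (gen_O0 h (by norm_num) (by norm_num) (by norm_num)) (gen_O1 h hy) (gen_O2 h hy)
        · intro x hx σ h1 h2 h3
          exact good_P0' h hx h1 h2 h3 hb₀ hη0 hη1 (hxb₀ x hx)
            (fun b k1 k2 k3 => tk_b k1 k2 k3) (tk_b₀ hb₀) tk_p (tk_q h.pq)
        · intro x hx _ _
          left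
          exact hη η hη0 le_rfl _ (fun b k1 k2 k3 => tk_b k1 k2 k3) (tk_b₀ hb₀) tk_p (tk_q h.pq)
            x hx
      · push Not at hUp
        obtain ⟨η, hη0, hη1, hη⟩ := good_of_no h.symm hUp
        exact case_a h hy hη0 hη1 fun x hx _ _ => Or.inr (hη η hη0 le_rfl _
          (fun b k1 k2 => tk_1 k2 k1) (tk_q h.pq) tk_p x hx).swap
    · push Not at hUq
      obtain ⟨η, hη0, hη1, hη⟩ := good_of_no h hUq
      exact case_a h hy hη0 hη1 fun x hx _ _ => Or.inl (hη η hη0 le_rfl _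
        (fun b k1 k2 => tk_1 k1 k2) tk_p (tk_q h.pq) x hx)

/-- **The theorem for normalised bodies.** -/
theorem main_norm (h : Nrm K p q) : Cov K := by
  by_cases hs : Sq K p q
  · exact case_sq h hs
  by_cases hy : ∃ y ∈ K, 1 < |y p| + |y q|
  · obtain ⟨η, hη0, hη1, hη⟩ := exists_gap h hs
    exact case_a h hy hη0 hη1 fun x hx _ _ => gen_PQ h hx (hη x hx)
  by_cases hUq : ∃ l, UU K p q l
  · obtain ⟨l, hl⟩ := hUq
    exact case_b h hs hl
  by_cases hUp : ∃ l, UU K q p l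
  · obtain ⟨l, hl⟩ := hUp
    exact case_b h.symm (fun h1 => hs h1.symm) hl
  push Not at hUq hUp
  exact case_c h hUq hUp

end cases

/-- a body with a box as section of codimension two -/
theorem main_two {K : Set (ι → ℝ)} (hK : Convex ℝ K) (hKc : IsCompact K)
    (hKi : (interior K).Nonempty) (hu : Unc K) {p q : ι} (hpq : p ≠ q)
    (hbox : ∃ y ∈ K, ∀ b, b ≠ p → b ≠ q → ∀ x ∈ K, x b ≤ y b) : Cov K := by
  obtain ⟨h0, -, -⟩ := Pool.Agent.Zk99.HB.unc_setup hK hKi hu
  have hne : K.Nonempty := ⟨0, interior_subset h0⟩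
  have hmax : ∀ i : ι, ∃ z ∈ K, ∀ x ∈ K, x i ≤ z i := fun i => by
    obtain ⟨z, hz, hz2⟩ := hKc.exists_isMaxOn hne (continuous_apply i).continuousOn
    exact ⟨z, hz, fun x hx => hz2 hx⟩
  choose z hzK hz using hmax
  obtain ⟨η, hη, hηK⟩ := Pool.Agent.Zk99.HB.exists_const h0
  set M : ι → ℝ := fun i => z i i with hM
  have hM0 : ∀ i, 0 < M i := fun i => hη.trans_le (hz i _ hηK)
  have habs : ∀ x ∈ K, ∀ i, |x i| ≤ M i := by
    intro x hx i
    have h1 : (fun j => |x j|) ∈ K := hu x hx _ fun j => abs_abs _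
    exact hz i _ h1
  set e : (ι → ℝ) ≃ₜ (ι → ℝ) :=
    Homeomorph.piCongrRight fun i => Homeomorph.mulLeft₀ (M i) (hM0 i).ne' with he
  have hee : ∀ x, e x = fun i => M i * x i := fun x => rfl
  have hadd : ∀ x y, e (x + y) = e x + e y := by
    intro x y
    rw [hee, hee, hee]
    funext i
    simp only [Pi.add_apply]
    ring
  have hnrm : Nrm (e ⁻¹' K) p q := by
    refine ⟨?_, e.isCompact_preimage.2 hKc, ?_, ?_, hpq, ?_, ?_, ?_, ?_⟩
    · intro x hx y hy a b ha hb hab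
      rw [Set.mem_preimage] at *
      have h1 := hK hx hy ha hb hab
      have h2 : e (a • x + b • y) = a • e x + b • e y := by
        rw [hee, hee, hee]
        funext i
        simp only [Pi.add_apply, Pi.smul_apply, smul_eq_mul]
        ring
      rw [h2]
      exact h1
    · refine ⟨e.symm 0, ?_⟩
      rw [← e.preimage_interior, Set.mem_preimage, Homeomorph.apply_symm_apply]
      exact h0
    · intro x hx y hy
      rw [Set.mem_preimage] at *
      refine hu _ hx _ fun i => ?_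
      rw [hee, hee]
      show |M i * y i| = |M i * x i|
      rw [abs_mul, abs_mul, hy i]
    · intro x hx i
      rw [Set.mem_preimage] at hx
      have h1 := habs _ hx i
      rw [hee] at h1
      have h2 : |M i * x i| = M i * |x i| := by rw [abs_mul, abs_of_pos (hM0 i)]
      have h3 : M i * |x i| ≤ M i * 1 := by
        rw [← h2, mul_one]
        exact h1
      exact le_of_mul_le_mul_left h3 (hM0 i)
    · rw [Set.mem_preimage, hee]
      refine unc_le hK hu (z p) (hzK p) _ fun i => ?_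
      split_ifs with h1
      · rw [h1, mul_one]
      · rw [mul_zero, abs_zero]
        exact abs_nonneg _
    · rw [Set.mem_preimage, hee]
      refine unc_le hK hu (z q) (hzK q) _ fun i => ?_
      split_ifs with h1
      · rw [h1, mul_one]
      · rw [mul_zero, abs_zero]
        exact abs_nonneg _
    · obtain ⟨y, hy, hy2⟩ := hbox
      rw [Set.mem_preimage, hee]
      refine unc_le hK hu y hy _ fun i => ?_
      split_ifs with h1
      · rw [mul_zero, abs_zero]
        exact abs_nonneg _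
      · push Not at h1
        rw [mul_one, abs_of_pos (hM0 i)]
        exact (hy2 i h1.1 h1.2 _ (hzK i)).trans (le_abs_self _)
  exact Pool.Agent.Zk99.HB.cov_preimage e hadd (main_norm hnrm)

end Pool.Agent.Zk99.HC
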