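import Mathlib
import Pool.Agent.Zk99.HC.Main

/-!
# The uniform version
-/

set_option autoImplicit false

namespace Pool.Agent.Zk99.HC

open Finset Filter Topology Pointwise
open Pool.Agent.N148.HD (Unc unc_le sol_of_unc)

variable {ι : Type} [Fintype ι] [DecidableEq ι]

section gauge

variable {L : Set (ι → ℝ)} {p q : ι}

lemma nrm_nhds (h : Nrm L p q) : L ∈ 𝓝 (0 : ι → ℝ) :=
  mem_interior_iff_mem_nhds.1 (Pool.Agent.Zk99.HB.unc_setup h.cvx h.int h.unc).1

lemma nrm_basis (h : Nrm L p q) (i : ι) (s : ℝ) (hs : |s| ≤ 1) :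
    (fun j => if j = i then s else 0) ∈ L := by
  by_cases hip : i = p
  · refine unc_le h.cvx h.unc _ h.ep _ fun j => ?_
    rw [hip]
    split_ifs
    · rw [abs_one]
      exact hs
    · rfl
  by_cases hiq : i = q
  · refine unc_le h.cvx h.unc _ h.eq _ fun j => ?_
    rw [hiq]
    split_ifs
    · rw [abs_one]
      exact hs
    · rfl
  · refine unc_le h.cvx h.unc _ h.bx _ fun j => ?_
    by_cases hj : j = i
    · rw [if_pos hj, if_neg (by rw [hj]; tauto), abs_one]
      exact hs
    · rw [if_neg hj, abs_zero]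
      exact abs_nonneg _

lemma g_lo (h : Nrm L p q) (x : ι → ℝ) (i : ι) : |x i| ≤ gauge L x := by
  by_contra hcon
  push Not at hcon
  obtain ⟨r, hr, hr0, y, hy, rfl⟩ := exists_lt_of_gauge_lt (absorbent_nhds_zero (nrm_nhds h)) hcon
  have h1 := h.le y hy i
  simp only [Pi.smul_apply, smul_eq_mul] at hr0
  rw [abs_mul, abs_of_pos hr] at hr0
  nlinarith

lemma g_hi (h : Nrm L p q) (x : ι → ℝ) : gauge L x ≤ ∑ i, |x i| := by
  have e : x = ∑ i, (fun j => if j = i then x i else 0) := by
    funext j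
    rw [Finset.sum_apply]
    simp
  calc gauge L x = gauge L (∑ i, (fun j => if j = i then x i else 0)) := by rw [← e]
    _ ≤ ∑ i, gauge L (fun j => if j = i then x i else 0) :=
        gauge_sum_le h.cvx (absorbent_nhds_zero (nrm_nhds h)) _ _
    _ ≤ ∑ i, |x i| := Finset.sum_le_sum fun i _ => by
        refine gauge_le_of_mem (abs_nonneg _) ?_
        refine ⟨fun j => if j = i then (if 0 ≤ x i then 1 else -1) else 0,
          nrm_basis h i _ ?_, ?_⟩
        · split_ifs
          · rw [abs_one]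
          · rw [abs_neg, abs_one]
        · funext j
          simp only [Pi.smul_apply, smul_eq_mul]
          by_cases hj : j = i
          · rw [if_pos hj, if_pos hj]
            split_ifs with h0
            · rw [mul_one, abs_of_nonneg h0]
            · rw [abs_of_neg (not_le.1 h0)]
              ring
          · rw [if_neg hj, if_neg hj, mul_zero]

lemma g_lip (h : Nrm L p q) (x y : ι → ℝ) : gauge L x ≤ gauge L y + ∑ i, |x i - y i| := by
  have e : x = y + (x - y) := by abel
  have h1 := gauge_add_le h.cvx (absorbent_nhds_zero (nrm_nhds h)) y (x - y)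
  rw [← e] at h1
  exact h1.trans (add_le_add_right (g_hi h (x - y)) _)

lemma g_unc (h : Nrm L p q) {x y : ι → ℝ} (hxy : ∀ i, |y i| = |x i|) :
    gauge L y = gauge L x := by
  have key : ∀ {x y : ι → ℝ}, (∀ i, |y i| = |x i|) → ∀ r : ℝ, 0 < r → x ∈ r • L → y ∈ r • L := by
    rintro x y hxy r hr ⟨z, hz, rfl⟩
    refine ⟨r⁻¹ • y, h.unc z hz _ fun i => ?_, ?_⟩
    · have h1 := hxy i
      simp only [Pi.smul_apply, smul_eq_mul] at h1 ⊢
      rw [abs_mul, h1, abs_mul, abs_inv, abs_of_pos hr, ← mul_assoc, inv_mul_cancel₀ hr.ne',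
        one_mul]
    · show r • r⁻¹ • y = y
      rw [smul_smul, mul_inv_cancel₀ hr.ne', one_smul]
  rw [gauge_def, gauge_def]
  congr 1
  ext r
  simp only [Set.mem_Ioi]
  exact ⟨fun ⟨h1, h2⟩ => ⟨h1, key (fun i => (hxy i).symm) r h1 h2⟩,
    fun ⟨h1, h2⟩ => ⟨h1, key hxy r h1 h2⟩⟩

end gauge

/-- **The uniform version for normalised bodies.** -/
theorem stable_norm {p q : ι} (hpq : p ≠ q) : ∃ ε : ℝ, 0 < ε ∧ ∀ L : Set (ι → ℝ), Nrm L p q →
    ∃ T : Finset (ι → ℝ), T.card ≤ 2 ^ Fintype.card ι ∧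
      ∀ x ∈ L, ∃ t ∈ T, (1 + ε) • x - t ∈ interior L := by
  by_contra hcon
  push Not at hcon
  have h1 : ∀ m : ℕ, ∃ L : Set (ι → ℝ), Nrm L p q ∧
      ∀ T : Finset (ι → ℝ), T.card ≤ 2 ^ Fintype.card ι →
        ∃ x ∈ L, ∀ t ∈ T, (1 + 1 / ((m : ℝ) + 1)) • x - t ∉ interior L := fun m =>
    hcon (1 / ((m : ℝ) + 1)) (by positivity)
  choose L hL hLT using h1
  set U : Ultrafilter ℕ := hyperfilter ℕ with hU
  have hη : Tendsto (fun m : ℕ => 1 / ((m : ℝ) + 1)) U (𝓝 0) :=
    tendsto_one_div_add_atTop_nhds_zero_nat.mono_left Nat.hyperfilter_le_atTop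
  have hlim : ∀ x : ι → ℝ, ∃ a : ℝ, Tendsto (fun m => gauge (L m) x) U (𝓝 a) := by
    intro x
    obtain ⟨a, -, ha⟩ := (isCompact_Icc (a := (0 : ℝ)) (b := ∑ i, |x i|)).ultrafilter_le_nhds
      (U.map fun m => gauge (L m) x) (by
        rw [le_principal_iff]
        exact Ultrafilter.mem_map.2 (Filter.univ_mem' fun m => ⟨gauge_nonneg _, g_hi (hL m) x⟩))
    exact ⟨a, ha⟩
  choose N hN using hlim
  have N_lo : ∀ x i, |x i| ≤ N x := fun x i =>
    ge_of_tendsto' (hN x) fun m => g_lo (hL m) x i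
  have N_hi : ∀ x, N x ≤ ∑ i, |x i| := fun x => le_of_tendsto' (hN x) fun m => g_hi (hL m) x
  have N_add : ∀ x y, N (x + y) ≤ N x + N y := fun x y =>
    le_of_tendsto_of_tendsto' (hN _) ((hN x).add (hN y)) fun m =>
      gauge_add_le (hL m).cvx (absorbent_nhds_zero (nrm_nhds (hL m))) x y
  have N_smul : ∀ (t : ℝ) x, 0 ≤ t → N (t • x) = t * N x := fun t x ht => by
    refine tendsto_nhds_unique (hN _) ?_
    have h2 : (fun m => gauge (L m) (t • x)) = fun m => t * gauge (L m) x := by
      funext m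
      rw [gauge_smul_of_nonneg ht, smul_eq_mul]
    rw [h2]
    exact (hN x).const_mul t
  have N_unc : ∀ x y, (∀ i, |y i| = |x i|) → N y = N x := fun x y hxy => by
    refine tendsto_nhds_unique (hN y) ?_
    have h2 : (fun m => gauge (L m) y) = fun m => gauge (L m) x := by
      funext m
      exact g_unc (hL m) hxy
    rw [h2]
    exact hN x
  have N_mem : ∀ x, (∀ m, x ∈ L m) → N x ≤ 1 := fun x hx =>
    le_of_tendsto' (hN x) fun m => gauge_le_one_of_mem (hx m)
  have N_lip : ∀ x y, N x ≤ N y + ∑ i, |x i - y i| := fun x y => by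
    have e : x = y + (x - y) := by abel
    have h2 := N_add y (x - y)
    rw [← e] at h2
    exact h2.trans (add_le_add_right (N_hi (x - y)) _)
  -- the continuity of `N`
  have hsumc : ∀ y : ι → ℝ, Continuous fun x : ι → ℝ => ∑ i, |x i - y i| := fun y =>
    continuous_finsetSum _ fun i _ => ((continuous_apply i).sub continuous_const).abs
  have N_cont : Continuous N := by
    rw [continuous_iff_continuousAt]
    intro y
    have h2 : Tendsto (fun x : ι → ℝ => ∑ i, |x i - y i|) (𝓝 y) (𝓝 0) := by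
      have := (hsumc y).tendsto y
      simpa using this
    refine tendsto_of_tendsto_of_tendsto_of_le_of_le (g := fun x => N y - ∑ i, |x i - y i|)
      (h := fun x => N y + ∑ i, |x i - y i|) ?_ ?_ (fun x => ?_) fun x => N_lip x y
    · simpa using tendsto_const_nhds.sub h2
    · simpa using tendsto_const_nhds.add h2
    · have h3 := N_lip y x
      have h4 : ∑ i, |y i - x i| = ∑ i, |x i - y i| :=
        Finset.sum_congr rfl fun i _ => abs_sub_comm _ _
      rw [h4] at h3
      show N y - ∑ i, |x i - y i| ≤ N x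
      linarith
  -- the limit body
  set M : Set (ι → ℝ) := {x | N x ≤ 1} with hM
  have hMcl : IsClosed M := isClosed_le N_cont continuous_const
  have hint0 : (0 : ι → ℝ) ∈ interior M := by
    rw [mem_interior]
    refine ⟨{x | ∑ i, |x i - (0 : ι → ℝ) i| < 1}, fun x hx => ?_,
      isOpen_lt (hsumc 0) continuous_const, by simp⟩
    have hx' : ∑ i, |x i| < 1 := by simpa using hx
    exact (N_hi x).trans hx'.le
  have hMn : Nrm M p q := by
    refine ⟨?_, ?_, ⟨0, hint0⟩, ?_, hpq, ?_, ?_, ?_, ?_⟩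
    · intro x hx y hy a b ha hb hab
      have h2 := N_add (a • x) (b • y)
      rw [N_smul a x ha, N_smul b y hb] at h2
      have hx' : N x ≤ 1 := hx
      have hy' : N y ≤ 1 := hy
      show N (a • x + b • y) ≤ 1
      nlinarith
    · refine (isCompact_Icc (a := fun _ : ι => (-1 : ℝ)) (b := fun _ => 1)).of_isClosed_subset
        hMcl fun x hx => ?_
      have hx' : N x ≤ 1 := hx
      exact ⟨fun i => (abs_le.1 ((N_lo x i).trans hx')).1,
        fun i => (abs_le.1 ((N_lo x i).trans hx')).2⟩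
    · intro x hx y hxy
      show N y ≤ 1
      rw [N_unc x y hxy]
      exact hx
    · intro x hx i
      exact (N_lo x i).trans hx
    · exact N_mem _ fun m => (hL m).ep
    · exact N_mem _ fun m => (hL m).eq
    · exact N_mem _ fun m => (hL m).bx
  have M_int : ∀ x ∈ interior M, N x < 1 := by
    intro x hx
    have h2 : Tendsto (fun t : ℝ => (1 + t) • x) (𝓝 0) (𝓝 x) := by
      have : Continuous fun t : ℝ => (1 + t) • x :=
        (continuous_const.add continuous_id).smul continuous_const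
      simpa using this.tendsto 0
    have h3 := h2.eventually_mem (isOpen_interior.mem_nhds hx)
    obtain ⟨δ, hδ, hδ2⟩ := Metric.eventually_nhds_iff.1 h3
    have h4 : (1 + δ / 2) • x ∈ interior M := hδ2 (by
      rw [Real.dist_eq, sub_zero, abs_of_pos (by linarith)]
      linarith)
    have h4' : (1 + δ / 2) • x ∈ M := interior_subset h4
    have h5 : N ((1 + δ / 2) • x) ≤ 1 := h4'
    rw [N_smul _ _ (by linarith)] at h5
    have h6 : 0 ≤ N x := by
      by_contra hneg
      push Not at hneg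
      have h7 := N_add x (-x)
      rw [N_unc x (-x) fun i => by rw [Pi.neg_apply, abs_neg], add_neg_cancel] at h7
      have h8 : N 0 = 0 := by
        have := N_smul 0 x le_rfl
        rwa [zero_smul, zero_mul] at this
      linarith
    nlinarith
  obtain ⟨T, hT, hcov⟩ := main_norm hMn
  choose x hx hxT using fun m => hLT m T hT
  -- the limit point
  have hxlim : ∃ a : ι → ℝ, Tendsto x U (𝓝 a) := by
    obtain ⟨a, -, ha⟩ := (isCompact_Icc (a := fun _ : ι => (-1 : ℝ)) (b := fun _ => 1)
      ).ultrafilter_le_nhds (U.map x) (by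
        rw [le_principal_iff]
        exact Ultrafilter.mem_map.2 (Filter.univ_mem' fun m =>
          ⟨fun i => (abs_le.1 ((hL m).le _ (hx m) i)).1,
            fun i => (abs_le.1 ((hL m).le _ (hx m) i)).2⟩))
    exact ⟨a, ha⟩
  obtain ⟨y, hy⟩ := hxlim
  have hsum0 : Tendsto (fun m => ∑ i, |x m i - y i|) U (𝓝 0) := by
    have := ((hsumc y).tendsto y).comp hy
    simpa [Function.comp_def] using this
  have hyM : y ∈ M := by
    have h2 : ∀ m, gauge (L m) y ≤ 1 + ∑ i, |x m i - y i| := by
      intro m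
      have h3 := g_lip (hL m) y (x m)
      have h4 : ∑ i, |y i - x m i| = ∑ i, |x m i - y i| :=
        Finset.sum_congr rfl fun i _ => abs_sub_comm _ _
      have h5 := gauge_le_one_of_mem (hx m)
      linarith
    have h3 : Tendsto (fun m => 1 + ∑ i, |x m i - y i|) U (𝓝 (1 + 0)) :=
      tendsto_const_nhds.add hsum0
    rw [add_zero] at h3
    exact le_of_tendsto_of_tendsto' (hN y) h3 h2
  obtain ⟨t, ht, w, hw, htw⟩ := Set.mem_iUnion₂.1 (hcov hyM)
  have hw' : w = y - t := by
    rw [← htw]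
    show w = t + w - t
    abel
  rw [hw'] at hw
  have hNy := M_int _ hw
  -- the contradiction
  have hlip : ∀ m, gauge (L m) ((1 + 1 / ((m : ℝ) + 1)) • x m - t) ≤
      gauge (L m) (y - t) + (∑ i, |x m i - y i| + 1 / ((m : ℝ) + 1)) := by
    intro m
    have habs : Absorbent ℝ (L m) := absorbent_nhds_zero (nrm_nhds (hL m))
    have e : (1 + 1 / ((m : ℝ) + 1)) • x m - t = (x m - t) + (1 / ((m : ℝ) + 1)) • x m := by
      rw [add_smul, one_smul]
      abel
    have h2 := gauge_add_le (hL m).cvx habs (x m - t) ((1 / ((m : ℝ) + 1)) • x m)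
    have hpos : (0 : ℝ) ≤ 1 / ((m : ℝ) + 1) := by positivity
    rw [← e, gauge_smul_of_nonneg hpos, smul_eq_mul] at h2
    have h3 := gauge_le_one_of_mem (hx m)
    have h4 := g_lip (hL m) (x m - t) (y - t)
    have h5 : ∑ i, |(x m - t) i - (y - t) i| = ∑ i, |x m i - y i| := by
      refine Finset.sum_congr rfl fun i _ => ?_
      rw [Pi.sub_apply, Pi.sub_apply]
      congr 1
      ring
    rw [h5] at h4
    have h6 : 1 / ((m : ℝ) + 1) * gauge (L m) (x m) ≤ 1 / ((m : ℝ) + 1) * 1 :=
      mul_le_mul_of_nonneg_left h3 hpos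
    linarith
  have hlim2 : Tendsto (fun m : ℕ => gauge (L m) (y - t) +
      (∑ i, |x m i - y i| + 1 / ((m : ℝ) + 1))) U (𝓝 (N (y - t) + (0 + 0))) :=
    (hN _).add (hsum0.add hη)
  rw [add_zero, add_zero] at hlim2
  obtain ⟨m, hm⟩ := (hlim2.eventually_lt_const hNy).exists
  exact hxT m t ht ((gauge_lt_one_iff_mem_interior (hL m).cvx (nrm_nhds (hL m))).1
    ((hlip m).trans_lt hm))

end Pool.Agent.Zk99.HC
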