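import Mathlib
import Pool.Agent.Zk99.HC.Stable

/-!
# The theorem
-/

set_option autoImplicit false

namespace Pool.Agent.Zk99.HC

open Finset Filter Topology Pointwise
open Pool.Agent.N148.HD (Unc unc_le sol_of_unc)
open Pool.Agent.Zk99.HB (fset fset_props)

section

variable {ι : Type} [Fintype ι] [DecidableEq ι]

/-- normalisation -/
lemma exists_nrm {L : Set (ι → ℝ)} (hL : Convex ℝ L) (hLc : IsCompact L)
    (hLi : (interior L).Nonempty) (hu : Unc L) {p q : ι} (hpq : p ≠ q)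
    (hbox : ∃ y ∈ L, ∀ b, b ≠ p → b ≠ q → ∀ x ∈ L, x b ≤ y b) :
    ∃ e : (ι → ℝ) ≃ₜ (ι → ℝ), (∀ x y, e (x + y) = e x + e y) ∧ (∀ (t : ℝ) x, e (t • x) = t • e x) ∧
      Nrm (e ⁻¹' L) p q := by
  obtain ⟨h0, -, -⟩ := Pool.Agent.Zk99.HB.unc_setup hL hLi hu
  have hne : L.Nonempty := ⟨0, interior_subset h0⟩
  have hmax : ∀ i : ι, ∃ z ∈ L, ∀ x ∈ L, x i ≤ z i := fun i => by
    obtain ⟨z, hz, hz2⟩ := hLc.exists_isMaxOn hne (continuous_apply i).continuousOn
    exact ⟨z, hz, fun x hx => hz2 hx⟩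
  choose z hzK hz using hmax
  obtain ⟨η, hη, hηK⟩ := Pool.Agent.Zk99.HB.exists_const h0
  set M : ι → ℝ := fun i => z i i with hM
  have hM0 : ∀ i, 0 < M i := fun i => hη.trans_le (hz i _ hηK)
  have habs : ∀ x ∈ L, ∀ i, |x i| ≤ M i := by
    intro x hx i
    have h1 : (fun j => |x j|) ∈ L := hu x hx _ fun j => abs_abs _
    exact hz i _ h1
  set e : (ι → ℝ) ≃ₜ (ι → ℝ) :=
    Homeomorph.piCongrRight fun i => Homeomorph.mulLeft₀ (M i) (hM0 i).ne' with he
  have hee : ∀ x, e x = fun i => M i * x i := fun x => rfl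
  have hadd : ∀ x y, e (x + y) = e x + e y := by
    intro x y
    rw [hee, hee, hee]
    funext i
    simp only [Pi.add_apply]
    ring
  have hsmul : ∀ (t : ℝ) x, e (t • x) = t • e x := by
    intro t x
    rw [hee, hee]
    funext i
    simp only [Pi.smul_apply, smul_eq_mul]
    ring
  refine ⟨e, hadd, hsmul, ?_, e.isCompact_preimage.2 hLc, ?_, ?_, hpq, ?_, ?_, ?_, ?_⟩
  · intro x hx y hy a b ha hb hab
    rw [Set.mem_preimage] at *
    rw [hadd, hsmul, hsmul]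
    exact hL hx hy ha hb hab
  · refine ⟨e.symm 0, ?_⟩
    rw [← e.preimage_interior, Set.mem_preimage, Homeomorph.apply_symm_apply]
    exact h0
  · intro x hx y hy
    rw [Set.mem_preimage] at *
    refine hu _ hx _ fun i => ?_
    rw [hee, hee]
    show |M i * y i| = |M i * x i|
    rw [abs_mul, abs_mul, hy i]
  · intro x hx i
    rw [Set.mem_preimage] at hx
    have h1 := habs _ hx i
    rw [hee] at h1
    have h2 : |M i * x i| = M i * |x i| := by rw [abs_mul, abs_of_pos (hM0 i)]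
    have h3 : M i * |x i| ≤ M i * 1 := by
      rw [← h2, mul_one]
      exact h1
    exact le_of_mul_le_mul_left h3 (hM0 i)
  · rw [Set.mem_preimage, hee]
    refine unc_le hL hu (z p) (hzK p) _ fun i => ?_
    split_ifs with h1
    · rw [h1, mul_one]
    · rw [mul_zero, abs_zero]
      exact abs_nonneg _
  · rw [Set.mem_preimage, hee]
    refine unc_le hL hu (z q) (hzK q) _ fun i => ?_
    split_ifs with h1
    · rw [h1, mul_one]
    · rw [mul_zero, abs_zero]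
      exact abs_nonneg _
  · obtain ⟨y, hy, hy2⟩ := hbox
    rw [Set.mem_preimage, hee]
    refine unc_le hL hu y hy _ fun i => ?_
    split_ifs with h1
    · rw [mul_zero, abs_zero]
      exact abs_nonneg _
    · push Not at h1
      rw [mul_one, abs_of_pos (hM0 i)]
      exact (hy2 i h1.1 h1.2 _ (hzK i)).trans (le_abs_self _)

/-- a lower bound for finitely many positive numbers -/
lemma exists_le_all {α : Type} [Finite α] {P : α → ℝ → Prop}
    (h : ∀ a, ∃ ε : ℝ, 0 < ε ∧ P a ε) : ∃ (δ : ℝ) (f : α → ℝ), 0 < δ ∧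
      ∀ a, P a (f a) ∧ δ ≤ f a := by
  choose f hf0 hf using h
  cases isEmpty_or_nonempty α with
  | inl hE => exact ⟨1, f, one_pos, fun a => (hE.false a).elim⟩
  | inr hN =>
    obtain ⟨a₀, ha₀⟩ := Finite.exists_min f
    exact ⟨f a₀, f, hf0 a₀, fun a => ⟨hf a, ha₀ a⟩⟩

/-- **The uniform version.** -/
theorem stable_fun : ∃ ε : ℝ, 0 < ε ∧ ∀ L : Set (ι → ℝ), Convex ℝ L → IsCompact L →
    (interior L).Nonempty → Unc L →
    (∃ p q : ι, p ≠ q ∧ ∃ y ∈ L, ∀ b, b ≠ p → b ≠ q → ∀ x ∈ L, x b ≤ y b) →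
    ∃ T : Finset (ι → ℝ), T.card ≤ 2 ^ Fintype.card ι ∧
      ∀ x ∈ L, ∃ t ∈ T, (1 + ε) • x - t ∈ interior L := by
  classical
  obtain ⟨δ, f, hδ, hf⟩ := exists_le_all (α := {a : ι × ι // a.1 ≠ a.2})
    (P := fun a ε => 0 < ε ∧ ∀ L : Set (ι → ℝ), Nrm L a.1.1 a.1.2 →
      ∃ T : Finset (ι → ℝ), T.card ≤ 2 ^ Fintype.card ι ∧
        ∀ x ∈ L, ∃ t ∈ T, (1 + ε) • x - t ∈ interior L) (fun a => by
      obtain ⟨ε, h1, h2⟩ := stable_norm a.2
      exact ⟨ε, h1, h1, h2⟩)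
  refine ⟨δ, hδ, fun L hL hLc hLi hu ⟨p, q, hpq, hbox⟩ => ?_⟩
  obtain ⟨e, hadd, hsmul, hnrm⟩ := exists_nrm hL hLc hLi hu hpq hbox
  obtain ⟨⟨hf0, h1⟩, h2⟩ := hf ⟨(p, q), hpq⟩
  set ε := f ⟨(p, q), hpq⟩ with hε
  obtain ⟨T, hT, hT2⟩ := h1 (e ⁻¹' L) hnrm
  refine ⟨T.image e, card_image_le.trans hT, fun x hx => ?_⟩
  -- `(1 + δ) x = (1 + ε) x'` with `x' ∈ L`
  have h0 : (0 : ι → ℝ) ∈ L :=
    interior_subset (Pool.Agent.Zk99.HB.unc_setup hL hLi hu).1
  set s : ℝ := (1 + δ) / (1 + ε) with hs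
  have hε1 : (0 : ℝ) < 1 + ε := by linarith
  have hs0 : 0 ≤ s := by positivity
  have hs1 : s ≤ 1 := by
    rw [hs, div_le_one hε1]
    linarith
  have hx' : s • x ∈ L := by
    have := hL hx h0 hs0 (sub_nonneg.2 hs1) (by ring)
    rwa [smul_zero, add_zero] at this
  obtain ⟨t, ht, ht2⟩ := hT2 (e.symm (s • x)) (by
    rw [Set.mem_preimage, Homeomorph.apply_symm_apply]
    exact hx')
  refine ⟨e t, mem_image_of_mem _ ht, ?_⟩
  rw [← e.preimage_interior, Set.mem_preimage] at ht2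
  have h3 : e ((1 + ε) • e.symm (s • x) - t) = (1 + δ) • x - e t := by
    have h4 : e ((1 + ε) • e.symm (s • x) - t) + e t = (1 + δ) • x := by
      rw [← hadd, sub_add_cancel, hsmul, Homeomorph.apply_symm_apply, smul_smul, hs,
        mul_div_cancel₀ _ hε1.ne']
    rw [← h4, add_sub_cancel_right]
  rw [h3] at ht2
  exact ht2

end

/-- **The theorem.** -/
theorem main_eucl (n : ℕ) : ∃ ε : ℝ, 0 < ε ∧ ∀ L : Set (EuclideanSpace ℝ (Fin n)),
    Convex ℝ L → IsCompact L → (interior L).Nonempty →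
    (∀ x ∈ L, ∀ y : EuclideanSpace ℝ (Fin n), (∀ i, |y i| = |x i|) → y ∈ L) →
    (∃ p q : Fin n, p ≠ q ∧ ∃ y ∈ L, ∀ b, b ≠ p → b ≠ q → ∀ x ∈ L, x b ≤ y b) →
    ∀ K : Set (EuclideanSpace ℝ (Fin n)),
    (∃ g : EuclideanSpace ℝ (Fin n) ≃ᵃ[ℝ] EuclideanSpace ℝ (Fin n),
      L ⊆ g '' K ∧ g '' K ⊆ (1 + ε) • L) →
    ∃ T : Finset (EuclideanSpace ℝ (Fin n)), T.card ≤ 2 ^ n ∧
      K ⊆ ⋃ t ∈ T, (fun x => t + x) '' interior K := by
  classical
  obtain ⟨ε, hε, hmain⟩ := stable_fun (ι := Fin n)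
  rw [Fintype.card_fin] at hmain
  refine ⟨ε, hε, fun L hL hLc hLi hu hbox K ⟨g, hg1, hg2⟩ => ?_⟩
  obtain ⟨h1, h2, h3, h4⟩ := fset_props hL hLc hLi hu
  obtain ⟨T, hT, hT2⟩ := hmain (fset L) h1 h2 h3 h4 (by
    obtain ⟨p, q, hpq, y, hy, hy2⟩ := hbox
    exact ⟨p, q, hpq, WithLp.ofLp y, hy, fun b k1 k2 x hx => hy2 b k1 k2 _ hx⟩)
  set e := (EuclideanSpace.equiv (Fin n) ℝ).symm with he
  have hpre : fset L = e ⁻¹' L := rfl
  have hsub : interior L ⊆ g '' interior K := by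
    have h5 : g '' interior K = interior (g '' K) := by
      have := g.toHomeomorphOfFiniteDimensional.image_interior K
      rwa [AffineEquiv.coe_toHomeomorphOfFiniteDimensional] at this
    rw [h5]
    exact interior_mono hg1
  refine ⟨T.image fun t => g.linear.symm (e t), card_image_le.trans hT, fun k hk => ?_⟩
  obtain ⟨l, hl, hlk⟩ := hg2 (Set.mem_image_of_mem g hk)
  obtain ⟨t, ht, ht2⟩ := hT2 (e.symm l) (by
    rw [hpre, Set.mem_preimage]
    have : e (e.symm l) = l := e.apply_symm_apply l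
    rw [this]
    exact hl)
  have ht3 : (1 + ε) • l - e t ∈ interior L := by
    have h5 : fset L = e.toHomeomorph ⁻¹' L := rfl
    rw [h5, ← e.toHomeomorph.preimage_interior, Set.mem_preimage] at ht2
    have h6 : e.toHomeomorph ((1 + ε) • e.symm l - t) = (1 + ε) • l - e t := by
      show e ((1 + ε) • e.symm l - t) = (1 + ε) • l - e t
      rw [map_sub, map_smul, e.apply_symm_apply]
    rw [h6] at ht2
    exact ht2
  obtain ⟨k', hk', hk''⟩ := hsub ht3
  refine Set.mem_iUnion₂.2 ⟨_, mem_image_of_mem _ ht, k', hk', ?_⟩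
  show g.linear.symm (e t) + k' = k
  have h7 : g k' = g k - e t := by
    rw [hk'']
    congr 1
  have h8 : g (g.linear.symm (e t) + k') = g k := by
    have h9 := g.map_vadd k' (g.linear.symm (e t))
    rw [vadd_eq_add, vadd_eq_add] at h9
    rw [h9, LinearEquiv.apply_symm_apply, h7]
    abel
  exact g.injective h8

end Pool.Agent.Zk99.HC
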